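import Pool.Agent.H63ND.Inj

/-!
# The differential `d₂`, the multiplication by `h₀` and the limit page in the degrees `2 ^ j t`
-/

set_option autoImplicit false

namespace Pool.Agent.H63ND

open Finset MvPolynomial Pool.Agent.W624 Pool.Agent.W624.NS Pool.Agent.H61ND

/-- a cocycle of degree `2 ^ j t` is cohomologous to the square of one of degree `2 ^ (j - 1) t` -/
theorem surj_half (n : ℕ) : ∃ J : ℕ, ∀ k t : ℕ, J ≤ k + 1 → ∀ x : Z (n + 1),
    IsHom (n + 1) (2 ^ (k + 1) * t) x.1 →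
    ∃ u : Z (n + 1), IsHom (n + 1) (2 ^ k * t) u.1 ∧
      IsHom (n + 1) (2 ^ (k + 1) * t) (sqZ (n + 1) u).1 ∧
      IsB (n + 1) (x.1 - (sqZ (n + 1) u).1) := by
  obtain ⟨r, hr⟩ := surj1 n
  refine ⟨r, fun k t hk x hx => ?_⟩
  obtain ⟨u, hu, hxu⟩ := hr (2 ^ (k + 1) * t) (Dvd.dvd.mul_right (pow_dvd_pow 2 hk) t) x hx
  have h2 : 2 ^ (k + 1) * t = 2 * (2 ^ k * t) := by ring
  have h1 : 2 ^ (k + 1) * t / 2 = 2 ^ k * t := by omega
  rw [h1] at hu
  refine ⟨u, hu, ?_, hxu⟩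
  rw [h2]
  exact isHom_sq u hu

theorem cycle_iff_sq1 (n : ℕ) : ∃ J : ℕ, ∀ (A : AdamsSequence) (j t : ℕ), J ≤ j →
    ∀ (x : Z (n + 1)) (hx : IsHom (n + 1) (2 ^ j * t) x.1),
      A.IsCycle 2 (n + 1) (2 ^ j * t) (A.rep (n + 1) (2 ^ j * t) x hx) ↔
        cl (Sq1 (n + 1) x) = 0 := by
  obtain ⟨J1, h1⟩ := surj_half n
  obtain ⟨J2, h2⟩ := h0_injective (n + 1)
  obtain ⟨J3, h3⟩ := sq_injective (n + 1)
  obtain ⟨J4, h4⟩ := sq1_congr n
  refine ⟨J1 + J2 + J3 + J4 + 2, fun A j t hj x hx => ?_⟩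
  obtain ⟨k, rfl⟩ : ∃ k, j = k + 2 := ⟨j - 2, by omega⟩
  obtain ⟨u, hu, hu2, hxu⟩ := h1 (k + 1) t (by omega) x hx
  have hev : Even (2 ^ (k + 1) * t) := by
    rw [pow_succ, mul_comm (2 ^ k) 2, mul_assoc]
    exact even_two_mul _
  rw [(rep_congr A hx hu2).2 hxu, cycle_iff A (by ring) hev u hu hu2,
    h4 A (k + 2) t (by omega) x (sqZ (n + 1) u) hx hu2 (cl_eq_iff.2 hxu), Sq1_sqZ]
  have hS : IsHom (n + 1 + 1) (2 ^ (k + 2) * t) (Sq1 (n + 1) u).1 := by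
    have h5 := isHom_Sq1 u hu
    have h6 : 2 * (2 ^ (k + 1) * t) = 2 ^ (k + 2) * t := by ring
    rw [h6] at h5
    exact h5
  constructor
  · intro h
    rw [h0_cl, cl_eq_zero] at h
    have h5 := h2 (k + 2) t (by omega) _ hS h
    rw [cl_eq_zero]
    exact isB_sq h5
  · intro h
    rw [cl_eq_zero] at h
    have h5 := h3 (k + 2) t (by omega) _ hS h
    rw [h0_cl, cl_eq_zero]
    exact isB_mulH0 h5

theorem sources {s j t : ℕ} (h1 : s ≤ j + 1) (h2 : 2 * s ≤ j + 5) (ht : 0 < t)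
    (A : AdamsSequence) (r : ℕ) (hr : 2 ≤ r) (s₀ t₀ : ℕ) (k : ℕ) (hk : 1 ≤ k)
    (h : s₀ + k + 1 = s) (h' : t₀ + k = 2 ^ j * t) (z : A.E r s₀ t₀) : z = 0 := by
  refine page_zero A (fun x hx => ?_) r hr z
  obtain rfl : s₀ = s - 1 - k := by omega
  obtain rfl : t₀ = 2 ^ j * t - k := by omega
  exact sparse (s - 1) j t k (by omega) (by omega) ht hk (by omega) x hx

/-- `h₀ x` is hit if and only if `x` is `Sq¹` of a class -/
theorem hit_iff (n : ℕ) : ∃ J : ℕ, ∀ (A : AdamsSequence) (j t : ℕ), J ≤ j → 0 < t →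
    ∀ (x : Z (n + 1 + 1)) (hx : IsHom (n + 1 + 1) (2 ^ j * t) x.1) (r : ℕ)
      (y : A.E r (n + 1 + 1) (2 ^ j * t)), 3 ≤ r → Lives A (n + 1 + 1) (2 ^ j * t) x hx r y →
      (A.h r (n + 1 + 1) (2 ^ j * t) y = 0 ↔
        ∃ w : Z (n + 1), IsHom (n + 1) (2 ^ (j - 1) * t) w.1 ∧ cl (Sq1 (n + 1) w) = cl x) := by
  obtain ⟨J1, h1⟩ := surj_half n
  obtain ⟨J2, h2⟩ := h0_injective (n + 1)
  refine ⟨J1 + J2 + 2 * n + 4, fun A j t hj ht x hx r y hr hy => ?_⟩
  obtain ⟨k, rfl⟩ : ∃ k, j = k + 2 := ⟨j - 2, by omega⟩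
  have hpre : k + 2 - 1 = k + 1 := by omega
  rw [hpre]
  have hev : Even (2 ^ (k + 1) * t) := by
    rw [pow_succ, mul_comm (2 ^ k) 2, mul_assoc]
    exact even_two_mul _
  have hrep := A.mulH.h_rep (n + 1 + 1) (2 ^ (k + 2) * t) x hx (isHom_h0 _ hx)
  have hl := lives_h A hy
  have h0 : ∀ q, 3 ≤ q → ∀ s₀ t₀ : ℕ, s₀ + q = n + 1 + 1 + 1 →
      t₀ + q = 2 ^ (k + 2) * t + 1 + 1 → ∀ z : A.E q s₀ t₀, z = 0 := fun q hq s₀ t₀ h h' z =>
    sources (s := n + 1 + 1) (j := k + 2) (by omega) (by omega) ht A q (by omega) s₀ t₀ (q - 2)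
      (by omega) (by omega) (by omega) z
  rw [lives_zero3 A h0 hl hr]
  -- the formula of Bruner
  have key : ∀ (w : Z (n + 1)) (hw : IsHom (n + 1) (2 ^ (k + 1) * t) w.1)
      (hw2 : IsHom (n + 1) (2 ^ (k + 2) * t) (sqZ (n + 1) w).1)
      (hS : IsHom (n + 1 + 1 + 1) (2 ^ (k + 2) * t + 1) (h0Z (n + 1 + 1) (Sq1 (n + 1) w)).1)
      (e1 : n + 1 + 2 = n + 1 + 1 + 1) (e2 : 2 ^ (k + 2) * t + 2 = 2 ^ (k + 2) * t + 1 + 1),
      A.d 2 (n + 1) (2 ^ (k + 2) * t) (n + 1 + 1 + 1) (2 ^ (k + 2) * t + 1) e1 e2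
        (A.rep (n + 1) (2 ^ (k + 2) * t) (sqZ (n + 1) w) hw2) =
      A.rep (n + 1 + 1 + 1) (2 ^ (k + 2) * t + 1) (h0Z (n + 1 + 1) (Sq1 (n + 1) w)) hS := by
    intro w hw
    have h6 : 2 ^ (k + 2) * t = 2 * (2 ^ (k + 1) * t) := by ring
    rw [h6]
    intro hw2 hS e1 e2
    exact A.bruner (n + 1) (2 ^ (k + 1) * t) w hw hw2 hS hev e1 e2
  have homS : ∀ w : Z (n + 1), IsHom (n + 1) (2 ^ (k + 1) * t) w.1 →
      IsHom (n + 1 + 1) (2 ^ (k + 2) * t) (Sq1 (n + 1) w).1 := by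
    intro w hw
    have h5 := isHom_Sq1 w hw
    have h6 : 2 * (2 ^ (k + 1) * t) = 2 ^ (k + 2) * t := by ring
    rw [h6] at h5
    exact h5
  have homQ : ∀ w : Z (n + 1), IsHom (n + 1) (2 ^ (k + 1) * t) w.1 →
      IsHom (n + 1) (2 ^ (k + 2) * t) (sqZ (n + 1) w).1 := by
    intro w hw
    have h5 := isHom_sq w hw
    have h6 : 2 * (2 ^ (k + 1) * t) = 2 ^ (k + 2) * t := by ring
    rw [h6] at h5
    exact h5
  constructor
  · rintro (h | ⟨s₀, t₀, e1, e2, z, hz⟩)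
    · have hB := (A.start.rep_zero _ _ _ _).1 h
      have h5 := h2 (k + 2) t (by omega) x hx hB
      refine ⟨zeroZ (n + 1), isWeightedHomogeneous_zero _ _ _, ?_⟩
      have h6 : (Sq1 (n + 1) (zeroZ (n + 1))).1 = 0 := by
        change cupSq (n + 1) 0 = 0
        simp [cupSq]
      rw [cl_eq_zero.2 h5, cl_eq_zero, h6]
      exact isB_zero _
    · obtain rfl : s₀ = n + 1 := by omega
      obtain rfl : t₀ = 2 ^ (k + 2) * t := by omega
      obtain ⟨v, hv, rfl⟩ := A.start.rep_surj _ _ z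
      obtain ⟨w, hw, hw2, hvw⟩ := h1 (k + 1) t (by omega) v hv
      refine ⟨w, hw, ?_⟩
      have h5 : A.start.rep (n + 1) (2 ^ (k + 2) * t) v hv =
        A.start.rep (n + 1) (2 ^ (k + 2) * t) (sqZ (n + 1) w) hw2 := (rep_congr A hv hw2).2 hvw
      rw [h5] at hz
      have h6 := (key w hw hw2 (isHom_h0 _ (homS w hw)) e1 e2).symm.trans hz
      have h7 := (rep_congr A (isHom_h0 _ (homS w hw)) (isHom_h0 _ hx)).1 h6
      rw [← h0Z_sub] at h7
      exact cl_eq_iff.2 (h2 (k + 2) t (by omega) (subZ (Sq1 (n + 1) w) x)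
        (isHom_sub (homS w hw) hx) h7)
  · rintro ⟨w, hw, hwx⟩
    refine Or.inr ⟨n + 1, 2 ^ (k + 2) * t, rfl, rfl,
      A.rep (n + 1) (2 ^ (k + 2) * t) (sqZ (n + 1) w) (homQ w hw), ?_⟩
    have h6 := key w hw (homQ w hw) (isHom_h0 _ (homS w hw)) rfl rfl
    refine h6.trans ((rep_congr A _ _).2 ?_)
    rw [← h0Z_sub]
    exact isB_mulH0 (cl_eq_iff.1 hwx)

/-! ### finiteness -/

theorem mem_box {s T : ℕ} {d : (Fin s × ℕ) →₀ ℕ}
    (hd : Finsupp.weight (fun p : Fin s × ℕ => 2 ^ (p.2 + 1) - 1) d = T) :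
    d ∈ ((Finset.univ : Finset (Fin s)) ×ˢ Finset.range T).finsupp fun _ => Finset.range (T + 1) := by
  classical
  have hle : ∀ a ∈ d.support, d a * (2 ^ (a.2 + 1) - 1) ≤ T := by
    intro a ha
    rw [Finsupp.weight_apply, Finsupp.sum] at hd
    have h1 := Finset.single_le_sum (f := fun a => d a • (2 ^ (a.2 + 1) - 1))
      (fun _ _ => Nat.zero_le _) ha
    rw [hd] at h1
    simpa using h1
  have hw : ∀ n : ℕ, n + 1 ≤ 2 ^ (n + 1) - 1 := by
    intro n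
    induction n with
    | zero => norm_num
    | succ n ih =>
      have : 2 ^ (n + 1 + 1) = 2 * 2 ^ (n + 1) := by ring
      omega
  rw [Finset.mem_finsupp_iff]
  constructor
  · intro a ha
    rw [Finset.mem_product]
    refine ⟨Finset.mem_univ _, Finset.mem_range.2 ?_⟩
    have h1 := hle a ha
    have h2 : 1 ≤ d a := Nat.one_le_iff_ne_zero.2 (Finsupp.mem_support_iff.1 ha)
    have h3 := Nat.mul_le_mul h2 (hw a.2)
    omega
  · intro a _
    rw [Finset.mem_range]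
    by_cases ha : a ∈ d.support
    · have h1 := hle a ha
      have h3 : d a * 1 ≤ d a * (2 ^ (a.2 + 1) - 1) :=
        Nat.mul_le_mul_left _ ((Nat.le_add_left 1 a.2).trans (hw a.2))
      omega
    · rw [Finsupp.notMem_support_iff.1 ha]
      omega

theorem finite_hom (s T : ℕ) : {u : Z s | IsHom s T u.1}.Finite := by
  classical
  set S := ((Finset.univ : Finset (Fin s)) ×ˢ Finset.range T).finsupp
    fun _ => Finset.range (T + 1) with hS
  refine Set.Finite.of_injOn (f := fun (u : Z s) (d : S) =>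
    coeff d.1 (u.1 : MvPolynomial (Fin s × ℕ) (ZMod 2))) (t := Set.univ)
    (Set.mapsTo_univ _ _) ?_ Set.finite_univ
  intro u hu v hv h
  apply Subtype.ext
  refine MvPolynomial.ext (σ := Fin s × ℕ) (R := ZMod 2) _ _ fun d => ?_
  by_cases hd : d ∈ S
  · exact congrFun h ⟨d, hd⟩
  · have h1 : coeff d (u.1 : MvPolynomial (Fin s × ℕ) (ZMod 2)) = 0 :=
      by_contra fun hne => hd (mem_box (hu hne))
    have h2 : coeff d (v.1 : MvPolynomial (Fin s × ℕ) (ZMod 2)) = 0 :=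
      by_contra fun hne => hd (mem_box (hv hne))
    rw [h1, h2]

theorem lives_congr (A : AdamsSequence) {s t : ℕ} {x x' : Z s} {hx : IsHom s t x.1}
    {hx' : IsHom s t x'.1} (h : A.rep s t x hx = A.rep s t x' hx') {r : ℕ} {y : A.E r s t}
    (hl : Lives A s t x hx r y) : Lives A s t x' hx' r y := by
  induction hl with
  | start => rw [h]; exact Lives.start
  | step r y hy _ ih => exact Lives.step r y hy ih

theorem lives_unique (A : AdamsSequence) {s t : ℕ} {x : Z s} {hx : IsHom s t x.1} {r : ℕ}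
    {y y' : A.E r s t} (h : Lives A s t x hx r y) (h' : Lives A s t x hx r y') : y = y' := by
  induction h with
  | start =>
    cases h' with
    | start => rfl
    | step r y hy hl => exact absurd hl.two_le (by omega)
  | step r y hy hl ih =>
    cases h' with
    | start => exact absurd hl.two_le (by omega)
    | step r y2 hy2 hl2 =>
      obtain rfl := ih hl2
      rfl

end Pool.Agent.H63ND
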