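import Pool.Agent.H63ND.Four

/-!
# The multiplication by `h₀` on the page `E₃`
-/

set_option autoImplicit false

namespace Pool.Agent.H63ND

open Finset MvPolynomial Pool.Agent.W624 Pool.Agent.W624.NS Pool.Agent.H61ND

theorem d2_h (A : AdamsSequence) {s t T : ℕ} (hT : T = 2 * t) (ht : Even t) (x : Z s)
    (hx : IsHom s t x.1) (hx2 : IsHom s T (sqZ s x).1)
    (hh2 : IsHom (s + 2 + 1) (T + 1 + 1) (h0Z (s + 2) (h0Z (s + 1) (Sq1 s x))).1)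
    (e1 : s + 1 + 2 = s + 2 + 1) (e2 : T + 1 + 2 = T + 1 + 1 + 1) :
    A.d 2 (s + 1) (T + 1) (s + 2 + 1) (T + 1 + 1) e1 e2
      (A.rep (s + 1) (T + 1) (h0Z s (sqZ s x)) (isHom_h0 _ hx2)) =
      A.rep (s + 2 + 1) (T + 1 + 1) (h0Z (s + 2) (h0Z (s + 1) (Sq1 s x))) hh2 := by
  subst hT
  have hh : IsHom (s + 2) (2 * t + 1) (h0Z (s + 1) (Sq1 s x)).1 := isHom_h0 _ (isHom_Sq1 x hx)
  have hb := A.bruner s t x hx hx2 hh ht rfl rfl
  have h1 := A.mulH.h_rep s (2 * t) (sqZ s x) hx2 (isHom_h0 _ hx2)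
  have h2 := A.mulH.h_rep (s + 2) (2 * t + 1) (h0Z (s + 1) (Sq1 s x)) hh (isHom_h0 _ hh)
  have h3 := A.mulH.h_d 2 s (2 * t) (s + 2) (2 * t + 1) rfl rfl e1 e2
    (A.rep s (2 * t) (sqZ s x) hx2) le_rfl
  rw [h1, hb, h2] at h3
  exact h3

/-- the multiplication by `h₀` from `E₃^{s + 1, 2 ^ j t + 1}` to `E₃^{s + 2, 2 ^ j t + 2}` is
injective -/
theorem page3_inj (n : ℕ) : ∃ J : ℕ, ∀ (A : AdamsSequence) (j t : ℕ), J ≤ j → 0 < t →
    ∀ z : A.E 3 (n + 1 + 1 + 1) (2 ^ j * t + 1),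
      A.h 3 (n + 1 + 1 + 1) (2 ^ j * t + 1) z = 0 → z = 0 := by
  obtain ⟨J1, h1⟩ := page3_surj (n + 1)
  obtain ⟨J2, h2⟩ := hit_iff n
  obtain ⟨J3, h3⟩ := cycle_iff_sq1 (n + 1)
  obtain ⟨J4, h4⟩ := h0_surj1 (n + 1)
  obtain ⟨J5, h5⟩ := h0sq_injective (n + 1)
  refine ⟨J1 + J2 + J3 + J4 + J5 + 2, fun A j t hj ht z hz => ?_⟩
  obtain ⟨x, hx, y, hS, hy, rfl⟩ := h1 A j t (by omega) z
  have hc := (h3 A j t (by omega) x hx).2 hS
  have hy' : y = A.turns.next 2 (n + 1 + 1) (2 ^ j * t) _ hc :=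
    lives_unique A hy (Lives.step 2 _ hc Lives.start)
  have hl : Lives A (n + 1 + 1) (2 ^ j * t) x hx 3 y := hy
  have hl2 := lives_h A (lives_h A hl)
  have hit : A.IsHit 2 (n + 1 + 1 + 1 + 1) (2 ^ j * t + 1 + 1)
      (A.rep (n + 1 + 1 + 1 + 1) (2 ^ j * t + 1 + 1) (h0Z (n + 1 + 1 + 1) (h0Z (n + 1 + 1) x))
        (isHom_h0 _ (isHom_h0 x hx))) := by
    have hc1 := cycle_h A le_rfl hc
    have hc2 := cycle_h A le_rfl hc1
    have e1 : A.h 3 (n + 1 + 1) (2 ^ j * t) y = A.turns.next 2 _ _ _ hc1 := by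
      rw [hy']
      exact A.mulH.h_next 2 (n + 1 + 1) (2 ^ j * t) _ hc hc1 le_rfl
    have e2 : A.h 3 (n + 1 + 1 + 1) (2 ^ j * t + 1) (A.h 3 (n + 1 + 1) (2 ^ j * t) y) =
        A.turns.next 2 _ _ _ hc2 := by
      rw [e1]
      exact A.mulH.h_next 2 (n + 1 + 1 + 1) (2 ^ j * t + 1) _ hc1 hc2 le_rfl
    rw [e2] at hz
    have h6 := (A.turns.next_zero 2 _ _ _ hc2 le_rfl).1 hz
    rw [A.mulH.h_rep (n + 1 + 1) (2 ^ j * t) x hx (isHom_h0 x hx),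
      A.mulH.h_rep (n + 1 + 1 + 1) (2 ^ j * t + 1) (h0Z (n + 1 + 1) x) (isHom_h0 x hx)
        (isHom_h0 _ (isHom_h0 x hx))] at h6
    exact h6
  refine (h2 A j t (by omega) ht x hx 3 y le_rfl hy).2 ?_
  obtain ⟨k, rfl⟩ : ∃ k, j = k + 2 := ⟨j - 2, by omega⟩
  have hpre : k + 2 - 1 = k + 1 := by omega
  rw [hpre]
  have hev : Even (2 ^ (k + 1) * t) := by
    rw [pow_succ, mul_comm (2 ^ k) 2, mul_assoc]
    exact even_two_mul _
  rcases hit with h | ⟨s₀, t₀, e1, e2, v, hv⟩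
  · have hB := (A.start.rep_zero _ _ _ _).1 h
    have h6 : cl x = 0 := h5 (k + 2) t (by omega) x hx (by rw [h0_cl, h0_cl]; exact cl_eq_zero.2 hB)
    refine ⟨zeroZ (n + 1), isWeightedHomogeneous_zero _ _ _, ?_⟩
    have h7 : (Sq1 (n + 1) (zeroZ (n + 1))).1 = 0 := by
      change cupSq (n + 1) 0 = 0
      simp [cupSq]
    rw [h6, cl_eq_zero, h7]
    exact isB_zero _
  · obtain rfl : s₀ = n + 1 + 1 := by omega
    obtain rfl : t₀ = 2 ^ (k + 2) * t + 1 := by omega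
    obtain ⟨v0, hv0, rfl⟩ := A.start.rep_surj _ _ v
    obtain ⟨w, hw, hvw⟩ := h4 (k + 1) t (by omega) v0 hv0
    have hw2 : IsHom (n + 1) (2 ^ (k + 2) * t) (sqZ (n + 1) w).1 := by
      have h6 := isHom_sq w hw
      have h7 : 2 * (2 ^ (k + 1) * t) = 2 ^ (k + 2) * t := by ring
      rw [h7] at h6
      exact h6
    have homS : IsHom (n + 1 + 1) (2 ^ (k + 2) * t) (Sq1 (n + 1) w).1 := by
      have h6 := isHom_Sq1 w hw
      have h7 : 2 * (2 ^ (k + 1) * t) = 2 ^ (k + 2) * t := by ring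
      rw [h7] at h6
      exact h6
    refine ⟨w, hw, ?_⟩
    have e3 : A.start.rep (n + 1 + 1) (2 ^ (k + 2) * t + 1) v0 hv0 =
        A.start.rep (n + 1 + 1) (2 ^ (k + 2) * t + 1) (h0Z (n + 1) (sqZ (n + 1) w))
          (isHom_h0 _ hw2) := (rep_congr A _ _).2 hvw
    rw [e3] at hv
    have e4 := d2_h A (by ring) hev w hw hw2 (isHom_h0 _ (isHom_h0 _ homS)) e1 e2
    have e5 := e4.symm.trans hv
    have e6 := cl_eq_iff.2 ((rep_congr A (isHom_h0 _ (isHom_h0 _ homS))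
      (isHom_h0 _ (isHom_h0 x hx))).1 e5)
    have e7 : h0 (n + 1 + 1 + 1) (h0 (n + 1 + 1) (cl (subZ (Sq1 (n + 1) w) x))) = 0 := by
      rw [h0_cl, h0_cl, cl_eq_zero]
      have e8 : (h0Z (n + 1 + 1 + 1) (h0Z (n + 1 + 1) (subZ (Sq1 (n + 1) w) x))).1 =
          (h0Z (n + 1 + 1 + 1) (h0Z (n + 1 + 1) (Sq1 (n + 1) w))).1 -
            (h0Z (n + 1 + 1 + 1) (h0Z (n + 1 + 1) x)).1 := by
        change mulH0 _ (h0Z (n + 1 + 1) (subZ (Sq1 (n + 1) w) x)).1 = _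
        rw [h0Z_sub, mulH0_sub]
        rfl
      rw [e8]
      exact cl_eq_iff.1 e6
    have e9 := h5 (k + 2) t (by omega) (subZ (Sq1 (n + 1) w) x) (isHom_sub homS hx) e7
    rw [cl_eq_zero] at e9
    exact cl_eq_iff.2 e9

end Pool.Agent.H63ND
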