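import Pool.Agent.H63ND.H0U
import Pool.Agent.H63ND.Fam

/-!
# The second line: the classes of degree `2 ^ j t + 1`
-/

set_option autoImplicit false

namespace Pool.Agent.H63ND

open Finset MvPolynomial Pool.Agent.W624 Pool.Agent.W624.NS Pool.Agent.H61ND

/-- every class of degree `2 ^ j t + 1` is `h₀ Sq⁰ x` -/
theorem h0_surj1 (n : ℕ) : ∃ J : ℕ, ∀ k t : ℕ, J ≤ k → ∀ u : Z (n + 1),
    IsHom (n + 1) (2 ^ (k + 1) * t + 1) u.1 →
    ∃ x : Z n, IsHom n (2 ^ k * t) x.1 ∧ IsB (n + 1) (u.1 - (h0Z n (sqZ n x)).1) := by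
  obtain ⟨r, hr⟩ := h0_surj_stz n
  refine ⟨r, fun k t hk u hu => ?_⟩
  have hd : ∑ j : Fin (n + 3), Stz.cf (n + 1) j (u.1 : ND.Cob (n + 1)) = 0 := by
    have h3 := (dC_eq (n + 1) u.1).symm.trans u.2
    have h4 := ND.dC_apply (n + 1) (u.1 : ND.Cob (n + 1))
    exact h4.symm.trans h3
  have h2 : 2 ^ (k + 1) * t + 1 = 2 * (2 ^ k * t) + 1 := by ring
  rw [h2] at hu
  obtain ⟨z, h, hz, hdz, he⟩ := hr (2 ^ k * t) (Dvd.dvd.mul_right (pow_dvd_pow 2 hk) t) u.1 hu hd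
  refine ⟨⟨z, (dC_eq n z).trans ((ND.dC_apply n z).trans hdz)⟩, hz, ?_⟩
  refine ⟨h, (dC_eq n h).trans ((ND.dC_apply n h).trans ?_)⟩
  let M : ND.Cob (n + 1) := mulH0 n (z ^ 2)
  let U : ND.Cob (n + 1) := u.1
  let D : ND.Cob (n + 1) := ∑ j : Fin (n + 2), ND.coface n j h
  have h5 : M = Stz.mh n (z ^ 2) := mulH0_eq n (z ^ 2)
  change D = U - M
  have he' : U = M + D := he.trans (congrArg (fun y => y + D) h5.symm)
  rw [he']
  exact (add_sub_cancel_left _ _).symm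

theorem cycle_h_iff (A : AdamsSequence) {s t T : ℕ} (hT : T = 2 * t) (ht : Even t) (x : Z s)
    (hx : IsHom s t x.1) (hx2 : IsHom s T (sqZ s x).1) :
    A.IsCycle 2 (s + 1) (T + 1) (A.rep (s + 1) (T + 1) (h0Z s (sqZ s x)) (isHom_h0 _ hx2)) ↔
      h0 (s + 2) (h0 (s + 1) (cl (Sq1 s x))) = 0 := by
  subst hT
  have hh : IsHom (s + 2) (2 * t + 1) (h0Z (s + 1) (Sq1 s x)).1 := isHom_h0 _ (isHom_Sq1 x hx)
  have hb := A.bruner s t x hx hx2 hh ht rfl rfl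
  have h1 := A.mulH.h_rep s (2 * t) (sqZ s x) hx2 (isHom_h0 _ hx2)
  have h2 := A.mulH.h_rep (s + 2) (2 * t + 1) (h0Z (s + 1) (Sq1 s x)) hh (isHom_h0 _ hh)
  have h3 := A.mulH.h_d 2 s (2 * t) (s + 2) (2 * t + 1) rfl rfl (by omega) (by omega)
    (A.rep s (2 * t) (sqZ s x) hx2) le_rfl
  rw [h1, hb, h2] at h3
  rw [h0_cl, h0_cl, cl_eq_zero, ← A.start.rep_zero (s + 2 + 1) (2 * t + 1 + 1) _ (isHom_h0 _ hh),
    ← h3]
  constructor
  · intro h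
    exact h _ _ _ _
  · intro h s' t' e1 e2
    obtain rfl : s' = s + 2 + 1 := by omega
    obtain rfl : t' = 2 * t + 1 + 1 := by omega
    exact h

/-- a class of degree `2 ^ j t + 1` which lives to `E_r` is zero there if and only if it is
`h₀ Sq¹ w` -/
theorem hit_second (n : ℕ) : ∃ J : ℕ, ∀ (A : AdamsSequence) (j t : ℕ), J ≤ j → 0 < t →
    ∀ (u : Z (n + 1 + 1 + 1)) (hu : IsHom (n + 1 + 1 + 1) (2 ^ j * t + 1) u.1) (r : ℕ)
      (y : A.E r (n + 1 + 1 + 1) (2 ^ j * t + 1)), 3 ≤ r →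
      Lives A (n + 1 + 1 + 1) (2 ^ j * t + 1) u hu r y →
      (y = 0 ↔ ∃ w : Z (n + 1), IsHom (n + 1) (2 ^ (j - 1) * t) w.1 ∧
        cl u = h0 (n + 1 + 1) (cl (Sq1 (n + 1) w))) := by
  obtain ⟨J1, h1⟩ := surj_half n
  refine ⟨J1 + 2 * n + 4, fun A j t hj ht u hu r y hr hy => ?_⟩
  obtain ⟨k, rfl⟩ : ∃ k, j = k + 2 := ⟨j - 2, by omega⟩
  have hpre : k + 2 - 1 = k + 1 := by omega
  rw [hpre]
  have hev : Even (2 ^ (k + 1) * t) := by
    rw [pow_succ, mul_comm (2 ^ k) 2, mul_assoc]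
    exact even_two_mul _
  have h0' : ∀ q, 3 ≤ q → ∀ s₀ t₀ : ℕ, s₀ + q = n + 1 + 1 + 1 →
      t₀ + q = 2 ^ (k + 2) * t + 1 + 1 → ∀ z : A.E q s₀ t₀, z = 0 := fun q hq s₀ t₀ h h' z =>
    sources (s := n + 1 + 1) (j := k + 2) (by omega) (by omega) ht A q (by omega) s₀ t₀ (q - 2)
      (by omega) (by omega) (by omega) z
  rw [lives_zero3 A h0' hy hr]
  have key : ∀ (w : Z (n + 1)) (hw : IsHom (n + 1) (2 ^ (k + 1) * t) w.1)
      (hw2 : IsHom (n + 1) (2 ^ (k + 2) * t) (sqZ (n + 1) w).1)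
      (hS : IsHom (n + 1 + 1 + 1) (2 ^ (k + 2) * t + 1) (h0Z (n + 1 + 1) (Sq1 (n + 1) w)).1)
      (e1 : n + 1 + 2 = n + 1 + 1 + 1) (e2 : 2 ^ (k + 2) * t + 2 = 2 ^ (k + 2) * t + 1 + 1),
      A.d 2 (n + 1) (2 ^ (k + 2) * t) (n + 1 + 1 + 1) (2 ^ (k + 2) * t + 1) e1 e2
        (A.rep (n + 1) (2 ^ (k + 2) * t) (sqZ (n + 1) w) hw2) =
      A.rep (n + 1 + 1 + 1) (2 ^ (k + 2) * t + 1) (h0Z (n + 1 + 1) (Sq1 (n + 1) w)) hS := by
    intro w hw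
    have h6 : 2 ^ (k + 2) * t = 2 * (2 ^ (k + 1) * t) := by ring
    rw [h6]
    intro hw2 hS e1 e2
    exact A.bruner (n + 1) (2 ^ (k + 1) * t) w hw hw2 hS hev e1 e2
  have homS : ∀ w : Z (n + 1), IsHom (n + 1) (2 ^ (k + 1) * t) w.1 →
      IsHom (n + 1 + 1) (2 ^ (k + 2) * t) (Sq1 (n + 1) w).1 := by
    intro w hw
    have h5 := isHom_Sq1 w hw
    have h6 : 2 * (2 ^ (k + 1) * t) = 2 ^ (k + 2) * t := by ring
    rw [h6] at h5
    exact h5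
  have homQ : ∀ w : Z (n + 1), IsHom (n + 1) (2 ^ (k + 1) * t) w.1 →
      IsHom (n + 1) (2 ^ (k + 2) * t) (sqZ (n + 1) w).1 := by
    intro w hw
    have h5 := isHom_sq w hw
    have h6 : 2 * (2 ^ (k + 1) * t) = 2 ^ (k + 2) * t := by ring
    rw [h6] at h5
    exact h5
  constructor
  · rintro (h | ⟨s₀, t₀, e1, e2, z, hz⟩)
    · have hB := (A.start.rep_zero _ _ _ _).1 h
      refine ⟨zeroZ (n + 1), isWeightedHomogeneous_zero _ _ _, ?_⟩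
      have h6 : (Sq1 (n + 1) (zeroZ (n + 1))).1 = 0 := by
        change cupSq (n + 1) 0 = 0
        simp [cupSq]
      have h7 : cl (Sq1 (n + 1) (zeroZ (n + 1))) = 0 := by
        rw [cl_eq_zero, h6]
        exact isB_zero _
      rw [h7, h0_zero]
      exact cl_eq_zero.2 hB
    · obtain rfl : s₀ = n + 1 := by omega
      obtain rfl : t₀ = 2 ^ (k + 2) * t := by omega
      obtain ⟨v, hv, rfl⟩ := A.start.rep_surj _ _ z
      obtain ⟨w, hw, hw2, hvw⟩ := h1 (k + 1) t (by omega) v hv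
      refine ⟨w, hw, ?_⟩
      have h5 : A.start.rep (n + 1) (2 ^ (k + 2) * t) v hv =
        A.start.rep (n + 1) (2 ^ (k + 2) * t) (sqZ (n + 1) w) hw2 := (rep_congr A hv hw2).2 hvw
      rw [h5] at hz
      have h6 := (key w hw hw2 (isHom_h0 _ (homS w hw)) e1 e2).symm.trans hz
      have h7 := (rep_congr A (isHom_h0 _ (homS w hw)) hu).1 h6
      rw [h0_cl]
      exact (cl_eq_iff.2 h7).symm
  · rintro ⟨w, hw, hwu⟩
    refine Or.inr ⟨n + 1, 2 ^ (k + 2) * t, rfl, rfl,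
      A.rep (n + 1) (2 ^ (k + 2) * t) (sqZ (n + 1) w) (homQ w hw), ?_⟩
    have h6 := key w hw (homQ w hw) (isHom_h0 _ (homS w hw)) rfl rfl
    refine h6.trans ((rep_congr A _ _).2 ?_)
    rw [h0_cl] at hwu
    exact cl_eq_iff.1 hwu.symm

end Pool.Agent.H63ND
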