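import Pool.Agent.H63ND.Three
import Pool.Agent.H63ND.Second

/-!
# The multiplication by `h₀²` is injective, for large `j`: the theorem for cocycles
-/

set_option autoImplicit false

namespace Pool.Agent.H63ND

open Finset MvPolynomial

section stz

open Pool.Agent.W624.Stz

open Pool.Agent.Q171.DG (TT_io)

theorem h0sq_stz (n : ℕ) : ∃ r : ℕ, ∀ t : ℕ, 2 ^ r ∣ t → ∀ x : QQ (n + 1),
    IsWeightedHomogeneous (fun v : Fin (n + 1) × ℕ => 2 ^ (v.2 + 1) - 1) x t →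
    ∑ j : Fin (n + 3), cf (n + 1) j x = 0 →
    (∃ q : QQ (n + 2), ∑ j : Fin (n + 4), cf (n + 2) j q = mh (n + 2) (mh (n + 1) (x ^ 2))) →
    ∃ y : QQ n, ∑ j : Fin (n + 2), cf n j y = x := by
  obtain ⟨r, h1, h2, h3⟩ := exists_r4 n
  refine ⟨r, fun t ht x hx hd => ?_⟩
  rintro ⟨q, hq⟩
  set ν : Empty → ℕ := fun _ => 0 with hν
  set z0 := io (n + 1) x with hz0
  have hz : TT kun (n + 1) (t : ℤ) ν 0 z0 := TT_io hx ν
  have hdz : dd kun (n + 1) z0 = 0 := by rw [hz0, ← io_d, hd, map_zero]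
  set Y := io (n + 2) q with hY
  have hdY : dd kun (n + 2) Y = X (.x (n + 2) 0) * (X (.x (n + 1) 0) * z0 ^ 2) := by
    rw [hY, ← io_d, hq, io_mh, io_mh, map_pow]
  have hT : IW (wF kun) (X (.x (n + 2) 0) * (X (.x (n + 1) 0) * z0 ^ 2) : RR Empty)
      (2 * (t : ℤ) + 2, (ν, 0)) := by
    have h1 := (isWeightedHomogeneous_X (ZMod 2) (wF (kun : Empty → Kd)) (Vr.x (n + 2) 0)).mul
      ((isWeightedHomogeneous_X (ZMod 2) (wF (kun : Empty → Kd)) (Vr.x (n + 1) 0)).mul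
        (hz.iw.pow 2))
    have h2 : wF (kun : Empty → Kd) (Vr.x (n + 2) 0) +
        (wF kun (Vr.x (n + 1) 0) + 2 • ((t : ℤ), (ν, 0))) = (2 * (t : ℤ) + 2, (ν, 0)) := by
      refine Prod.ext ?_ (Prod.ext (Subsingleton.elim _ _) ?_)
      · simp [wF, wG]
        ring
      · simp [wF, wG]
    rwa [h2] at h1
  obtain ⟨z, hzz, hdzz⟩ := h0sq_core h1 h2 h3 (t0 := (t : ℤ)) (ν := ν)
    (by exact_mod_cast ht) hz hdz
    (q := cm (wF kun) (2 * (t : ℤ) + 2, (ν, 0)) Y) ⟨by rw [← cm_cut, io_cut], cm_IW _ _ _⟩ (by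
      rw [← cm_dd naf_un, hdY, cm_same hT])
  refine ⟨ro n z, ?_⟩
  have h1 : io (n + 1) (∑ j : Fin (n + 2), cf n j (ro n z)) = io (n + 1) x := by
    rw [io_d, io_ro hzz, hdzz]
  have h2 := congrArg (ro (n + 1)) h1
  rwa [ro_io, ro_io] at h2

end stz

open Pool.Agent.W624 Pool.Agent.W624.NS Pool.Agent.H61ND

theorem h0sq_one (n : ℕ) : ∃ r : ℕ, ∀ t : ℕ, 2 ^ r ∣ t → ∀ x : Z (n + 1),
    IsHom (n + 1) t x.1 →
    IsB (n + 1 + 1 + 1) (h0Z (n + 1 + 1) (h0Z (n + 1) (sqZ (n + 1) x))).1 → IsB (n + 1) x.1 := by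
  obtain ⟨r, hr⟩ := h0sq_stz n
  refine ⟨r, fun t ht x hx hB => ?_⟩
  have hd : ∑ j : Fin (n + 3), Stz.cf (n + 1) j (x.1 : ND.Cob (n + 1)) = 0 := by
    have h3 := (dC_eq (n + 1) x.1).symm.trans x.2
    have h4 := ND.dC_apply (n + 1) (x.1 : ND.Cob (n + 1))
    exact h4.symm.trans h3
  obtain ⟨q, hq⟩ := hB
  have e1 : (h0Z (n + 1 + 1) (h0Z (n + 1) (sqZ (n + 1) x))).1 =
      mulH0 (n + 1 + 1) (mulH0 (n + 1) (x.1 ^ 2)) := rfl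
  have e2 : mulH0 (n + 1 + 1) (mulH0 (n + 1) (x.1 ^ 2)) =
      ND.mulH0 (n + 1 + 1) (ND.mulH0 (n + 1) (x.1 ^ 2)) :=
    (mulH0_eq _ _).trans (congrArg (ND.mulH0 (n + 1 + 1)) (mulH0_eq _ _))
  obtain ⟨z, hz⟩ := hr t ht (x.1 : ND.Cob (n + 1)) hx hd ⟨q, by
    refine Eq.trans ?_ (hq.trans (e1.trans e2))
    refine Eq.trans ?_ (dC_eq _ q).symm
    exact (ND.dC_apply _ (q : ND.Cob _)).symm⟩
  refine ⟨z, (dC_eq n z).trans ?_⟩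
  rw [ND.dC_apply]
  exact hz

/-- the multiplication by `h₀²` is injective -/
theorem h0sq_injective (n : ℕ) : ∃ J : ℕ, ∀ j t : ℕ, J ≤ j → ∀ x : Z (n + 1),
    IsHom (n + 1) (2 ^ j * t) x.1 → h0 (n + 1 + 1) (h0 (n + 1) (cl x)) = 0 → cl x = 0 := by
  obtain ⟨J1, h1⟩ := surj_half n
  obtain ⟨r, hr⟩ := h0sq_one n
  refine ⟨J1 + r + 1, fun j t hj x hx h => ?_⟩
  obtain ⟨k, rfl⟩ : ∃ k, j = k + 1 := ⟨j - 1, by omega⟩
  obtain ⟨u, hu, _, hxu⟩ := h1 k t (by omega) x hx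
  have h2 : cl x = cl (sqZ (n + 1) u) := cl_eq_iff.2 hxu
  rw [h2, h0_cl, h0_cl, cl_eq_zero] at h
  have h3 := hr (2 ^ k * t) (Dvd.dvd.mul_right (pow_dvd_pow 2 (by omega)) t) u hu h
  rw [h2, cl_eq_zero]
  exact isB_sq h3

theorem next_congr (A : AdamsSequence) {s t : ℕ} {y y' : A.E 2 s t} (h : y = y')
    (hy : A.IsCycle 2 s t y) (hy' : A.IsCycle 2 s t y') :
    A.turns.next 2 s t y hy = A.turns.next 2 s t y' hy' := by
  subst h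
  rfl

/-- `h₀ x` is a cycle of `d₂` if and only if `Sq¹ x = 0` -/
theorem cycle_h0_iff (n : ℕ) : ∃ J : ℕ, ∀ (A : AdamsSequence) (j t : ℕ), J ≤ j →
    ∀ (x : Z (n + 1)) (hx : IsHom (n + 1) (2 ^ j * t) x.1),
      A.IsCycle 2 (n + 1 + 1) (2 ^ j * t + 1)
        (A.rep (n + 1 + 1) (2 ^ j * t + 1) (h0Z (n + 1) x) (isHom_h0 x hx)) ↔
      cl (Sq1 (n + 1) x) = 0 := by
  obtain ⟨J1, h1⟩ := surj_half n
  obtain ⟨J2, h2⟩ := h0sq_injective (n + 1)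
  obtain ⟨J3, h3⟩ := sq_injective (n + 1)
  obtain ⟨J4, h4⟩ := sq1_congr n
  refine ⟨J1 + J2 + J3 + J4 + 2, fun A j t hj x hx => ?_⟩
  obtain ⟨k, rfl⟩ : ∃ k, j = k + 2 := ⟨j - 2, by omega⟩
  obtain ⟨u, hu, hu2, hxu⟩ := h1 (k + 1) t (by omega) x hx
  have hev : Even (2 ^ (k + 1) * t) := by
    rw [pow_succ, mul_comm (2 ^ k) 2, mul_assoc]
    exact even_two_mul _
  have e1 : A.rep (n + 1 + 1) (2 ^ (k + 2) * t + 1) (h0Z (n + 1) x) (isHom_h0 x hx) =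
      A.rep (n + 1 + 1) (2 ^ (k + 2) * t + 1) (h0Z (n + 1) (sqZ (n + 1) u)) (isHom_h0 _ hu2) := by
    refine (rep_congr A _ _).2 (cl_eq_iff.1 ?_)
    rw [← h0_cl, ← h0_cl, cl_eq_iff.2 hxu]
  rw [e1, cycle_h_iff A (by ring) hev u hu hu2,
    h4 A (k + 2) t (by omega) x (sqZ (n + 1) u) hx hu2 (cl_eq_iff.2 hxu), Sq1_sqZ]
  have hS : IsHom (n + 1 + 1) (2 ^ (k + 2) * t) (Sq1 (n + 1) u).1 := by
    have h5 := isHom_Sq1 u hu
    have h6 : 2 * (2 ^ (k + 1) * t) = 2 ^ (k + 2) * t := by ring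
    rw [h6] at h5
    exact h5
  constructor
  · intro h
    have h5 := h2 (k + 2) t (by omega) _ hS h
    rw [cl_eq_zero] at h5 ⊢
    exact isB_sq h5
  · intro h
    rw [cl_eq_zero] at h
    have h5 := h3 (k + 2) t (by omega) _ hS h
    rw [cl_eq_zero.2 h5, h0_zero, h0_zero]

/-- all elements of `E₃` in the bidegree `(s + 1, 2 ^ j t + 1)` are `h₀` times elements of `E₃` -/
theorem page3_surj (n : ℕ) : ∃ J : ℕ, ∀ (A : AdamsSequence) (j t : ℕ), J ≤ j →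
    ∀ z : A.E 3 (n + 1 + 1) (2 ^ j * t + 1),
    ∃ (x : Z (n + 1)) (hx : IsHom (n + 1) (2 ^ j * t) x.1) (y : A.E 3 (n + 1) (2 ^ j * t)),
      cl (Sq1 (n + 1) x) = 0 ∧ Lives A (n + 1) (2 ^ j * t) x hx 3 y ∧
      A.h 3 (n + 1) (2 ^ j * t) y = z := by
  obtain ⟨J1, h1⟩ := h0_surj1 (n + 1)
  obtain ⟨J2, h2⟩ := cycle_h0_iff n
  obtain ⟨J3, h3⟩ := cycle_iff_sq1 n
  refine ⟨J1 + J2 + J3 + 1, fun A j t hj z => ?_⟩
  obtain ⟨k, rfl⟩ : ∃ k, j = k + 1 := ⟨j - 1, by omega⟩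
  obtain ⟨y0, hy0, rfl⟩ := A.turns.next_surj 2 (n + 1 + 1) (2 ^ (k + 1) * t + 1) z le_rfl
  obtain ⟨u, hu, rfl⟩ := A.start.rep_surj (n + 1 + 1) (2 ^ (k + 1) * t + 1) y0
  obtain ⟨x', hx', hux⟩ := h1 k t (by omega) u hu
  have hX : IsHom (n + 1) (2 ^ (k + 1) * t) (sqZ (n + 1) x').1 := by
    have h5 := isHom_sq x' hx'
    have h6 : 2 * (2 ^ k * t) = 2 ^ (k + 1) * t := by ring
    rw [h6] at h5
    exact h5
  have e1 : A.rep (n + 1 + 1) (2 ^ (k + 1) * t + 1) u hu =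
      A.rep (n + 1 + 1) (2 ^ (k + 1) * t + 1) (h0Z (n + 1) (sqZ (n + 1) x')) (isHom_h0 _ hX) :=
    (rep_congr A _ _).2 hux
  have hc : A.IsCycle 2 (n + 1 + 1) (2 ^ (k + 1) * t + 1)
      (A.rep (n + 1 + 1) (2 ^ (k + 1) * t + 1) (h0Z (n + 1) (sqZ (n + 1) x')) (isHom_h0 _ hX)) := by
    rw [← e1]
    exact hy0
  have hS := (h2 A (k + 1) t (by omega) (sqZ (n + 1) x') hX).1 hc
  have hcX := (h3 A (k + 1) t (by omega) (sqZ (n + 1) x') hX).2 hS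
  refine ⟨sqZ (n + 1) x', hX, A.turns.next 2 (n + 1) (2 ^ (k + 1) * t) _ hcX, hS,
    Lives.step 2 _ hcX Lives.start, ?_⟩
  rw [A.mulH.h_next 2 (n + 1) (2 ^ (k + 1) * t) _ hcX (cycle_h A le_rfl hcX) le_rfl]
  refine next_congr A ?_ _ _
  rw [A.mulH.h_rep (n + 1) (2 ^ (k + 1) * t) (sqZ (n + 1) x') hX (isHom_h0 _ hX)]
  exact e1.symm

end Pool.Agent.H63ND
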