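import Pool.Agent.H63ND.Inj

/-!
# Every class of degree `2 ^ j t + 1` is `h₀ x`, for large `j`
-/

set_option autoImplicit false
set_option linter.unusedSectionVars false

namespace Pool.Agent.H63ND

open Finset MvPolynomial

section stz

open Pool.Agent.W624.Stz

theorem PHI_IN (z : RR Empty) : PHI (Option Empty) (IN Empty z) = (IN Empty z) ^ 2 := by
  induction z using MvPolynomial.induction_on with
  | C a =>
    have h1 : IN Empty (C a) = C a := algHom_C _ a
    have h2 : PHI (Option Empty) (C a) = C a := algHom_C _ a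
    rw [h1, h2, ← map_pow]
    congr 1
    clear h1 h2
    revert a
    decide
  | add p q hp hq => rw [map_add, map_add, hp, hq, p2_add_sq]
  | mul_X p v hp =>
    rw [map_mul, map_mul, hp, mul_pow]
    congr 1
    cases v with
    | x a n => rw [IN_x, PHI_x]
    | s a n => rw [IN_s, PHI_s]
    | y c n => exact c.elim

theorem lf_IN (κ : Option Empty → Kd) (q : ℕ) (z : RR Empty) :
    lf κ q (IN Empty z) = IN Empty z := by
  have : (lf κ q).comp (IN Empty) = IN Empty := by
    apply algHom_ext
    intro v
    rw [AlgHom.comp_apply]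
    cases v with
    | x a n => rw [IN_x, lf, ev_X, fc_last _ (by omega)]; rfl
    | s a n => rw [IN_s, lf, ev_X, fc_last _ (by omega)]; rfl
    | y c n => exact c.elim
  exact DFunLike.congr_fun this z

theorem lf_y (q : ℕ) : lf kE q (X (.y none 0) : RR (Option Empty)) + lf ktw q (X (.y none 0)) =
    X (.s q 0) := by
  rw [lf, lf, ev_X, ev_X, fc_last _ (by omega), fc_last _ (by omega)]
  simp only [co, act, act1, kE, ktw, Pi.add_apply]
  have h2 := p2_add_self (op (fr ((uni (Option Empty)).1 q).g) ((uni (Option Empty)).2 none) 0)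
  rw [show ∀ a b : RR (Option Empty), a + b + a = (a + a) + b by intro a b; ring, h2, zero_add]
  rfl

/-- the differential of `y₀ z²` in the affine complex -/
theorem dd_y0 {p : ℕ} {z : RR Empty} (hz : dd kun p z = 0) :
    dd kE p (X (.y none 0) * (IN Empty z) ^ 2) = X (.s p 0) * (IN Empty z) ^ 2 := by
  have h1 : dd ktw p (X (.y none 0) * (IN Empty z) ^ 2) = 0 := by
    have h2 : X (.y none 0) * (IN Empty z) ^ 2 = PHI (Option Empty) (X (.y none 0) * IN Empty z) := by
      rw [map_mul, PHI_y, PHI_IN]
    rw [h2, ← PHI_dd, dd_Y (κ := kun) (c := none) rfl,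
      ← IN_dd (κ1 := kun) (κ2 := kun) (fun _ => rfl), hz, map_zero, mul_zero, map_zero]
  have h3 : ∀ κ : Option Empty → Kd, lf κ p ((IN Empty z) ^ 2) = (IN Empty z) ^ 2 := by
    intro κ
    rw [map_pow, lf_IN]
  rw [dd_split, h1, zero_add, map_mul, map_mul, h3, h3, ← add_mul, lf_y]

/-- a homogeneous cocycle of the affine type has a linear primitive -/
theorem base_H {p : ℕ} {t : ℤ} {ν : Empty → ℕ} {f : RR Empty} (hf : TT ktw (p + 1) t ν 1 f)
    (hdf : dd ktw (p + 1) f = 0) :
    ∃ H, cut _ p H = H ∧ IW (wE Empty) H (t, (ν, 1)) ∧ dd kE p H = IN Empty f := by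
  have hkE : ∀ c : Empty, (kE : Option Empty → Kd) (some c) = ktw c := fun _ => rfl
  set F := IN Empty f with hF
  have hFc : cut _ (p + 1) F = F := by rw [hF, ← IN_cut, hf.cu]
  have hFw : IW (wE Empty) F (t, (ν, 1)) := IW_IN hf.iw
  have hFd : dd kE (p + 1) F = 0 := by rw [hF, ← IN_dd hkE, hdf, map_zero]
  refine ⟨hh Empty p F, ?_, IW_hh rfl hFw, ?_⟩
  · have := cut_hm hFc
    exact this
  · have h1 := prism_poly (p + 1) F hFc
    rw [hFd, map_zero, zero_add] at h1
    have h2 : LL Empty F = 0 := by
      have h1 := kill_zero ((LL Empty).comp (IN Empty)) (by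
        intro v
        rw [AlgHom.comp_apply]
        cases v with
        | x a n =>
          rw [IN_x, LL, ev_X]; exact isWeightedHomogeneous_X _ (js (Option Empty)) (Vr.x a n)
        | s a n => rw [IN_s, LL, ev_X]; exact IW.zero' _ _
        | y c n => exact c.elim)
        (by intro a n; rw [AlgHom.comp_apply, IN_s, LL, ev_X]; rfl) hf.jsw (by omega)
      exact h1
    rw [h2, zero_add] at h1
    exact h1

end stz

end Pool.Agent.H63ND
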