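import Pool.Agent.H63ND.H0S

/-!
# Every class of degree `2 ^ j t + 1` is `h₀ x`, for large `j`: the polynomial statement
-/

set_option autoImplicit false
set_option linter.unusedSectionVars false

namespace Pool.Agent.H63ND

open Finset MvPolynomial

section stz

open Pool.Agent.W624.Stz

theorem top_H {p : ℕ} {t : ℤ} {ν : Empty → ℕ} {f : RR Empty} {H : RR (Option Empty)}
    (hc : cut _ p H = H) (hw : IW (wE Empty) H (t, (ν, 1))) (hd : dd kE p H = IN Empty f) :
    ∃ H1, TT ktw p t (ee none) 0 H1 ∧ dd ktw p H1 = 0 ∧ Lt (wn Empty) 1 (H + H1) := by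
  have h4 : Lt (wn Empty) 2 H := by
    intro e he
    have a1 := hw he
    rw [wE_eq, wmap] at a1
    rw [wn_eq', wmap]
    have b3 := congrArg (fun m => m.2.2) a1
    simp only [pE, AddMonoidHom.coe_mk, ZeroHom.coe_mk] at b3
    simp only [pn, AddMonoidHom.coe_mk, ZeroHom.coe_mk]
    omega
  set Ht := cm (wn Empty) 1 H with hHt
  have hLtop : ∀ r : RR (Option Empty), Lt (wn Empty) 1 r → cm (wn Empty) 1 r = 0 := by
    intro r hr
    ext e
    rw [coeff_weightedHomogeneousComponent, coeff_zero]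
    split_ifs with he
    · by_contra hne
      have := hr e hne
      omega
    · rfl
  have hdt : dd ktw p Ht = 0 := by
    have h5 := congrArg (cm (wn Empty) 1) hd
    have hFn : IW (wn Empty) (IN Empty f) 0 := IW_wn_IN f
    rw [cm_ne hFn (by omega : 1 ≠ 0), dd_split, map_add, hLtop _ (lf_lt h4),
      add_zero] at h5
    have h6 := cm_comm (w := wn Empty) (w' := wn Empty) (fun m => m) (fun a b h => h)
      (dd ktw p) (fun f m hf => IW_dd_wn hf) H 1
    rw [h6] at h5
    exact h5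
  have hTw : IW (wE Empty) Ht (t, (ν, 1)) := cm_other hw
  have hTn : IW (wn Empty) Ht 1 := cm_IW _ _ _
  have hTc : cut _ p Ht = Ht := by
    have h6 := cm_comm (w := wn Empty) (w' := wn Empty) (fun m => m) (fun a b h => h)
      (cut (Option Empty) p).toLinearMap (fun f m hf => by
        rw [wn_eq] at hf ⊢
        exact IW_cut_c (κ := (ktw : Option Empty → Kd)) _ hf) H 1
    simp only [AlgHom.toLinearMap_apply] at h6
    rw [hHt, ← h6, hc]
  have hH1 : Lt (wn Empty) 1 (H + Ht) := by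
    intro e he
    rw [coeff_add, hHt, coeff_weightedHomogeneousComponent] at he
    by_cases hc : coeff e H = 0
    · rw [hc] at he
      simp at he
    · have h7 := h4 e hc
      by_cases h8 : Finsupp.weight (wn Empty) e = 1
      · rw [if_pos h8] at he
        exfalso
        apply he
        have := p2_add_self H
        have h9 := congrArg (coeff e) this
        rwa [coeff_add, coeff_zero] at h9
      · omega
  refine ⟨Ht, ⟨hTc, ?_⟩, hdt, hH1⟩
  intro e he
  have a1 := hTw he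
  have a2 := hTn he
  rw [wE_eq, wmap] at a1
  rw [wn_eq', wmap] at a2
  have b1 := congrArg Prod.fst a1
  have b3 := congrArg (fun m => m.2.2) a1
  simp only [pE, AddMonoidHom.coe_mk, ZeroHom.coe_mk] at b1 b3
  simp only [pn, AddMonoidHom.coe_mk, ZeroHom.coe_mk] at a2
  refine Prod.ext b1 (Prod.ext ?_ ?_)
  · funext o
    cases o with
    | none => exact a2.trans (ee_self _).symm
    | some c => exact c.elim
  · simp only
    omega

theorem step_z {p r : ℕ} (hQ1 : ∀ k : ℕ, k ≤ p → QT r (p - k) 1 (1 + k) (2 + 1 + k))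
    (hQ2 : QT r p 1 0 1) {t0 : ℤ} {ν : Empty → ℕ} (ht : (2 : ℤ) ^ r ∣ t0)
    {H1 : RR (Option Empty)}
    (h1 : TT ktw p (2 * t0 + 2) (ee none) 0 H1) (hd : dd ktw p H1 = 0) :
    ∃ z0 h3, TT kun p t0 ν 0 z0 ∧ dd kun p z0 = 0 ∧
      TT ktw (p - 1) (2 * t0 + 2) (ee none) 0 h3 ∧
      H1 = X (.y none 0) * (IN Empty z0) ^ 2 + dm ktw p h3 := by
  have hsum : ∑ c, (ee none : Option Empty → ℕ) c = 1 := sum_ee none
  obtain ⟨g, h, hg, hDg, hdg, hh, hHe⟩ := liftT h1 (by rw [hd, map_zero])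
    (fun k hk => hQ1 k hk (Option Empty) (ee none) hsum (2 * t0 + 2 + 1 + k) (by
      rw [show 2 * t0 + 2 + 1 + (k : ℤ) - (2 + 1 + k) = 2 * t0 by ring]
      exact ht.mul_left 2))
  have hz' : ∃ z', TT kun p (t0 + 1) (ee none) 0 z' ∧ PHI _ z' = g ∧ dd kun p z' = 0 := by
    rcases PHI_root hg hDg with h0 | ⟨t', ht', z', hz', hzg⟩
    · exact ⟨0, TT.zero, by rw [map_zero, h0], map_zero _⟩
    · have : t' = t0 + 1 := by linarith
      subst this
      refine ⟨z', hz', hzg, ?_⟩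
      apply PHI_inj
      rw [PHI_dd, hzg, hdg, hd]
  obtain ⟨z', hz', hzg, hdz'⟩ := hz'
  have hPz : dd ktw p (PI (sg none) z') = 0 := by
    rw [← PI_dd Rel_O, hdz', map_zero]
  obtain ⟨h2, hh2, hdh2⟩ := hQ2 (Option Empty) (ee none) hsum (t0 + 1) (by
    rw [show t0 + 1 - 1 = t0 by ring]; exact ht) _ (hz'.PI Rel_O) hPz
  have hSI := hh2.SI Rel_O
  have hw : TT kun p (t0 + 1) (ee none) 0 (z' - dm kun p (SI (sg none) h2)) :=
    hz'.sub (hSI.dm naf_un)
  have hPw : PI (sg none) (z' - dm kun p (SI (sg none) h2)) = 0 := by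
    rw [map_sub, PI_dm Rel_O, PI_SI, hdh2, sub_self]
  have hdw : dd kun p (z' - dm kun p (SI (sg none) h2)) = 0 := by
    rw [map_sub, dd_dm kun hSI.cu, sub_zero, hdz']
  have hz0 : ∃ z0, TT kun p t0 ν 0 z0 ∧ dd kun p z0 = 0 ∧
      z' - dm kun p (SI (sg none) h2) = X (.y none 0) * IN Empty z0 := by
    rcases Y_div (κ := kun) (c := none) rfl hw hPw with h0 | ⟨_, q2, hq2, hTq2⟩
    · exact ⟨0, TT.zero, map_zero _, by rw [h0, map_zero, mul_zero]⟩
    · have h1 : dd kun p q2 = 0 := by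
        have h2 := hdw
        rw [hq2, dd_Y (κ := kun) (c := none) rfl] at h2
        rcases mul_eq_zero.mp h2 with h3 | h3
        · exact absurd h3 (X_ne_zero _)
        · exact h3
      have h4 : IW (wn Empty) q2 0 := by
        have := hTq2.wn
        rwa [Pi.sub_apply, ee_self] at this
      refine ⟨RE Empty q2, ?_, ?_, ?_⟩
      · rw [show t0 + 1 - 1 = t0 by ring] at hTq2
        exact TT_jR hTq2
      · rw [← RE_dd (κ1 := kun) (κ2 := kun) (fun _ => rfl) (fun h => Kd.noConfusion h), h1,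
          map_zero]
      · rw [IN_RE h4, hq2]
  obtain ⟨z0, hTz0, hdz0, hwz⟩ := hz0
  have hTP : TT ktw (p - 1) (2 * t0 + 2) (ee none) 0 (PHI _ (SI (sg none) h2)) := by
    refine ⟨by rw [← PHI_cut, hSI.cu], ?_⟩
    have := IW_PHI hSI.iw
    have h9 : dbl (Option Empty → ℕ) (t0 + 1, (ee none, 0)) = (2 * t0 + 2, (ee none, 0)) := by
      refine Prod.ext ?_ (Prod.ext rfl ?_)
      · simp only [dbl, AddMonoidHom.coe_mk, ZeroHom.coe_mk]; ring
      · simp [dbl]
    rwa [h9] at this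
  refine ⟨z0, PHI _ (SI (sg none) h2) + h, hTz0, hdz0, hTP.add hh, ?_⟩
  have h5 : z' = X (.y none 0) * IN Empty z0 + dm kun p (SI (sg none) h2) := by
    rw [← hwz]; ring
  rw [hHe, ← hzg, h5, map_add, map_mul, PHI_y, PHI_IN, PHI_dm, map_add, add_assoc]

theorem liftT1 {K : Type} {q : ℕ} {t : ℤ} {ν : K → ℕ} {y : RR K}
    (hy : TT ktw q (t + 1) ν 1 y) (hD : DX K (dd ktw q y) = 0)
    (hex : ∀ k : ℕ, k ≤ q → Ex (ktw : K → Kd) (q - k) (t + 2 + k) ν (2 + k)) :
    ∃ g, TT ktw q (t + 1) ν 1 g ∧ DX K g = 0 ∧ dd ktw q g = dd ktw q y := by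
  have := lift_lemma (R := RR K) (fun q j f => TT ktw q (t + j) ν j f)
    (fun q => (dd ktw q).toAddMonoidHom) (fun q => (dm ktw q).toAddMonoidHom)
    (DX K).toLinearMap.toAddMonoidHom rfl (fun q => rfl) (fun q j f g hf hg => hf.sub hg)
    (fun q j f hf => hf.dd naf_tw) (fun q j f hf => by
      have := hf.DX
      have h2 : t + (j : ℤ) + 1 = t + ((j + 1 : ℕ) : ℤ) := by push_cast; ring
      rw [h2] at this
      exact this) (fun f => DX_DX f) (fun q f => DX_dd q f)
    (fun q j f hf => dd_dd ktw hf.cu) (fun q j f hf hD => by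
      have h2 : t + ((j + 1 : ℕ) : ℤ) = t + (j : ℤ) + 1 := by push_cast; ring
      rw [h2] at hf
      exact DX_exact hf hD) q 1 y (by simpa using hy) hD (by
      intro k hk f hf hdf
      have h3 := hex k hk
      have h2 : t + ((1 + 1 + k : ℕ) : ℤ) = t + 2 + k := by push_cast; ring
      rw [h2] at hf
      obtain ⟨h, hh1, hh2⟩ := h3 f hf hdf
      refine ⟨h, ?_, hh2⟩
      change TT ktw (q - k - 1) (t + ((1 + 1 + k : ℕ) : ℤ)) ν (1 + 1 + k) h
      rw [h2]
      exact hh1)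
  obtain ⟨g, h, h1, h2, h3, h4, h5⟩ := this
  refine ⟨g, ?_, h2, h3⟩
  simpa using h1

end stz

end Pool.Agent.H63ND
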