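import Pool.Agent.H63ND.H0T

/-!
# Every class of degree `2 ^ j t + 1` is `h₀ x`, for large `j`: the theorem
-/

set_option autoImplicit false
set_option linter.unusedSectionVars false

namespace Pool.Agent.H63ND

open Finset MvPolynomial

section stz

open Pool.Agent.W624.Stz

open Pool.Agent.Q171.DG (TT_io)

theorem h0_surj_core {p r : ℕ} (hQ1 : ∀ k : ℕ, k ≤ p → QT r (p - k) 1 (1 + k) (2 + 1 + k))
    (hQ2 : QT r p 1 0 1) (hQ3 : ∀ k : ℕ, k ≤ p → QT r (p - k) 0 (2 + k) (3 + k))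
    {t0 : ℤ} {ν : Empty → ℕ} (ht : (2 : ℤ) ^ r ∣ t0)
    {f : RR Empty} (hf : TT kun (p + 1) (2 * t0 + 1) ν 0 f) (hdf : dd kun (p + 1) f = 0) :
    ∃ z0 e, TT kun p t0 ν 0 z0 ∧ dd kun p z0 = 0 ∧ TT kun p (2 * t0 + 1) ν 0 e ∧
      f = X (.x p 0) * z0 ^ 2 + dd kun p e := by
  have hkE : ∀ c : Empty, (kE : Option Empty → Kd) (some c) = ktw c := fun _ => rfl
  have hft : TT ktw (p + 1) (2 * t0 + 1) ν 0 f := by rw [kk]; exact hf
  have hD1 : TT ktw (p + 1) (2 * t0 + 2) ν 1 (DX Empty f) := by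
    have := hft.DX
    rwa [show 2 * t0 + 1 + 1 = 2 * t0 + 2 by ring, zero_add] at this
  have hdD : dd ktw (p + 1) (DX Empty f) = 0 := by
    have h1 := DX_dd (K := Empty) (p + 1) f
    change DX Empty (dd ktw (p + 1) f) = dd ktw (p + 1) (DX Empty f) at h1
    rw [← h1, kk, hdf, map_zero]
  obtain ⟨H, hc, hw, hd⟩ := base_H hD1 hdD
  obtain ⟨H1, hH1, hdH1, hlt⟩ := top_H hc hw hd
  obtain ⟨z0, h3, hz0, hdz0, hh3, hHe⟩ := step_z hQ1 hQ2 (ν := ν) ht hH1 hdH1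
  have hh3n : IW (wn Empty) h3 1 := by
    have := hh3.wn
    rwa [ee_self] at this
  obtain ⟨r', hr1, hr2⟩ := dm_split_lt (q := p) (Lt.of_IW hh3n)
  have hz0t : TT ktw p t0 ν 0 z0 := by rw [kk]; exact hz0
  have hIz : IW (wE Empty) (IN Empty z0) (t0, (ν, 0)) := IW_IN hz0t.iw
  have hafE : ∀ c : Option Empty, kE c = .af → oE Empty c = (0, 1) := by
    intro c hc
    cases c with
    | none => rfl
    | some c => exact c.elim
  set Y : RR (Option Empty) := X (.y none 0) * (IN Empty z0) ^ 2 with hY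
  set H0 := H + dm kE p h3 + Y with hH0
  have hH0lt : Lt (wn Empty) 1 H0 := by
    have : H0 = (H + H1) + r' := by
      rw [hH0, hr1, hHe]
      ring
    rw [this]; exact hlt.add hr2
  have hn : IW (wn Empty) H0 0 := by
    intro e he
    have := hH0lt e he
    omega
  have hcY : cut _ p Y = Y := by
    rw [hY, map_mul, map_pow, ← IN_cut, hz0.cu]
    congr 1
    exact ev_X _ _
  have hcH0 : cut _ p H0 = H0 := by
    rw [hH0, map_add, map_add, hc, cut_dm _ hh3.cu, hcY]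
  have hwY : IW (wE Empty) Y (2 * t0 + 2, (ν, 1)) := by
    have h1 := (isWeightedHomogeneous_X (ZMod 2) (wE Empty) (Vr.y none 0)).mul (hIz.pow 2)
    have h2 : wE Empty (Vr.y none 0) + 2 • (t0, (ν, 0)) = (2 * t0 + 2, (ν, 1)) := by
      refine Prod.ext ?_ (Prod.ext (Subsingleton.elim _ _) ?_)
      · simp [wE, wG, kE, tk]
        ring
      · simp [wE, wG, oE]
    rwa [h2] at h1
  have hw3 : IW (wE Empty) h3 (2 * t0 + 2, (ν, 1)) := by
    have := hh3.iw.coarse (pE Empty)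
    rw [← wE_eq] at this
    have h9 : pE Empty (2 * t0 + 2, (ee none, 0)) = (2 * t0 + 2, (ν, 1)) := by
      refine Prod.ext rfl (Prod.ext (Subsingleton.elim _ _) ?_)
      simp only [pE, AddMonoidHom.coe_mk, ZeroHom.coe_mk]
      rw [ee_self]
    rwa [h9] at this
  have hwH0 : IW (wE Empty) H0 (2 * t0 + 2, (ν, 1)) := (hw.add (IW_dm hafE hw3)).add hwY
  have hdH0 : dd kE p H0 = IN Empty (DX Empty f) + X (.s p 0) * (IN Empty z0) ^ 2 := by
    rw [hH0, map_add, map_add, hd, dd_dm _ hh3.cu, add_zero, hY, dd_y0 hdz0]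
  set G := RE Empty H0 with hG
  have hTG : TT ktw p (2 * t0 + 2) ν 1 G := ⟨by rw [hG, ← RE_cut, hcH0], IW_RE hwH0⟩
  have hdG : dd ktw p G = DX Empty f + X (.s p 0) * z0 ^ 2 := by
    have h1 : IN Empty (dd ktw p G) = IN Empty (DX Empty f + X (.s p 0) * z0 ^ 2) := by
      rw [IN_dd hkE, hG, IN_RE hn, hdH0, map_add, map_mul, IN_s, map_pow]
    have h2 := congrArg (RE Empty) h1
    rwa [RE_IN, RE_IN] at h2
  set f' := f + X (.x p 0) * z0 ^ 2 with hf'
  have hTz : TT ktw (p + 1) (2 * t0 + 1) ν 0 (X (.x p 0) * z0 ^ 2) := by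
    refine ⟨?_, ?_⟩
    · rw [map_mul, map_pow, cut_le (Nat.le_succ p) hz0.cu]
      congr 1
      have : cut Empty (p + 1) (X (.x p 0)) = co (cpt (p + 1) (uni Empty)) (.x p 0) := ev_X _ _
      rw [this]
      simp only [co, cpt]
      rw [if_pos (Nat.lt_succ_self p)]
      rfl
    · have h1 := (isWeightedHomogeneous_X (ZMod 2) (wF (ktw : Empty → Kd)) (Vr.x p 0)).mul
        (hz0t.iw.pow 2)
      have h2 : wF (ktw : Empty → Kd) (Vr.x p 0) + 2 • (t0, (ν, 0)) =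
          (2 * t0 + 1, (ν, 0)) := by
        refine Prod.ext ?_ (Prod.ext (Subsingleton.elim _ _) ?_)
        · simp [wF, wG]
          ring
        · simp [wF, wG]
      rwa [h2] at h1
  have hDf' : DX Empty f' = dd ktw p G := by
    rw [hf', map_add, Derivation.leibniz, DX_x, der_sq, smul_zero, zero_add, hdG, smul_eq_mul,
      mul_comm (z0 ^ 2)]
  obtain ⟨g, hg, hDg, hdg⟩ := liftT1 (t := 2 * t0 + 1) (y := G) (by
    rw [show 2 * t0 + 1 + 1 = 2 * t0 + 2 by ring]; exact hTG) (by rw [← hDf', DX_DX])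
    (fun k hk => hQ3 k hk Empty ν (by simp) (2 * t0 + 1 + 2 + k) (by
      rw [show 2 * t0 + 1 + 2 + (k : ℤ) - (3 + k) = 2 * t0 by ring]
      exact ht.mul_left 2))
  obtain ⟨e0, he0, hDe0⟩ := DX_exact (j := 0) hg hDg
  have hD0 : DX Empty (f' + dd ktw p e0) = 0 := by
    have h1 := DX_dd (K := Empty) p e0
    change DX Empty (dd ktw p e0) = dd ktw p (DX Empty e0) at h1
    rw [map_add, hDf', h1, hDe0, hdg, p2_add_self]
  have hT' : TT ktw (p + 1) (2 * t0 + 1) ν 0 (f' + dd ktw p e0) :=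
    (hft.add hTz).add (he0.dd naf_tw)
  rcases PHI_root hT' hD0 with h0 | ⟨t', ht', _⟩
  · refine ⟨z0, e0, hz0, hdz0, by rw [← kk]; exact he0, ?_⟩
    have h1 : f + (X (.x p 0) * z0 ^ 2 + dd kun p e0) = 0 := by
      rw [← add_assoc, ← kk]
      exact h0
    exact p2_eq_of_add h1
  · exfalso
    omega

theorem exists_r3 (p : ℕ) : ∃ r, (∀ k : ℕ, k ≤ p → QT r (p - k) 1 (1 + k) (2 + 1 + k)) ∧
    QT r p 1 0 1 ∧ ∀ k : ℕ, k ≤ p → QT r (p - k) 0 (2 + k) (3 + k) := by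
  obtain ⟨r1, h1, h2⟩ := exists_r0 p
  obtain ⟨r2, h3⟩ := fin_max (fun k r => QT r (p - k) 0 (2 + k) (3 + k))
    (fun i r r' h hq => hq.mono h) p (by
      intro k hk
      exact stepQ (p - k) (fun p' _ => (main_ind p').2) (2 + k) (by omega) 0 (3 + k) (by
        push_cast; linarith))
  exact ⟨max r1 r2, fun k hk => (h1 k hk).mono (le_max_left _ _), h2.mono (le_max_left _ _),
    fun k hk => (h3 k hk).mono (le_max_right _ _)⟩

/-- A cocycle of degree `2 t + 1`, `t` divisible by a high power of two, is cohomologous to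
`z² ⊗ ξ₁`. -/
theorem h0_surj_stz (n : ℕ) : ∃ r : ℕ, ∀ t : ℕ, 2 ^ r ∣ t → ∀ f : QQ (n + 1),
    IsWeightedHomogeneous (fun v : Fin (n + 1) × ℕ => 2 ^ (v.2 + 1) - 1) f (2 * t + 1) →
    ∑ j : Fin (n + 3), cf (n + 1) j f = 0 →
    ∃ (z h : QQ n),
      IsWeightedHomogeneous (fun v : Fin n × ℕ => 2 ^ (v.2 + 1) - 1) z t ∧
      ∑ j : Fin (n + 2), cf n j z = 0 ∧
      f = mh n (z ^ 2) + ∑ j : Fin (n + 2), cf n j h := by
  obtain ⟨r, hr1, hr2, hr3⟩ := exists_r3 n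
  refine ⟨r, fun t ht f hf hd => ?_⟩
  set ν : Empty → ℕ := fun _ => 0 with hν
  set y := io (n + 1) f with hy
  have hty : TT kun (n + 1) (2 * (t : ℤ) + 1) ν 0 y := by
    have := TT_io hf ν
    rw [show ((2 * t + 1 : ℕ) : ℤ) = 2 * (t : ℤ) + 1 by push_cast; ring] at this
    exact this
  have hdy : dd kun (n + 1) y = 0 := by rw [hy, ← io_d, hd, map_zero]
  obtain ⟨z, h, hz, hdz, hh, he⟩ := h0_surj_core hr1 hr2 hr3 (t0 := (t : ℤ)) (ν := ν)
    (by exact_mod_cast ht) hty hdy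
  refine ⟨ro n z, ro n h, ro_hom hz rfl, ?_, ?_⟩
  · have h1 : io (n + 1) (∑ j : Fin (n + 2), cf n j (ro n z)) = 0 := by
      rw [io_d, io_ro hz, hdz]
    have h2 := congrArg (ro (n + 1)) h1
    rwa [ro_io, map_zero] at h2
  · have h1 : io (n + 1) f =
        io (n + 1) (mh n ((ro n z) ^ 2) + ∑ j : Fin (n + 2), cf n j (ro n h)) := by
      rw [map_add, io_mh, map_pow, io_d, io_ro hz, io_ro hh, ← hy, he]
    have h2 := congrArg (ro (n + 1)) h1
    rwa [ro_io, ro_io] at h2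

end stz

end Pool.Agent.H63ND
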