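import Pool.Agent.H63ND.Surj

/-!
# `Sq⁰` and `h₀` in the degrees `2 ^ j t`, for large `j`
-/

set_option autoImplicit false

namespace Pool.Agent.H63ND

open Finset MvPolynomial Pool.Agent.W624 Pool.Agent.W624.NS Pool.Agent.H61ND

theorem surj1 (n : ℕ) : ∃ r : ℕ, ∀ t : ℕ, 2 ^ r ∣ t → ∀ x : Z (n + 1), IsHom (n + 1) t x.1 →
    ∃ u : Z (n + 1), IsHom (n + 1) (t / 2) u.1 ∧ IsB (n + 1) (x.1 - (sqZ (n + 1) u).1) := by
  obtain ⟨r, hr⟩ := surj_stz n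
  refine ⟨r, fun t ht x hx => ?_⟩
  have hd : ∑ j : Fin (n + 3), Stz.cf (n + 1) j (x.1 : ND.Cob (n + 1)) = 0 := by
    have h3 := (dC_eq (n + 1) x.1).symm.trans x.2
    have h4 := ND.dC_apply (n + 1) (x.1 : ND.Cob (n + 1))
    exact h4.symm.trans h3
  obtain ⟨z, h, hz, hdz, he⟩ := hr t ht x.1 hx hd
  refine ⟨⟨z, (dC_eq (n + 1) z).trans ((ND.dC_apply (n + 1) z).trans hdz)⟩, hz, ?_⟩
  refine ⟨h, (dC_eq n h).trans ((ND.dC_apply n h).trans ?_)⟩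
  change (∑ j : Fin (n + 2), ND.coface n j h : ND.Cob (n + 1)) = (x.1 : ND.Cob (n + 1)) - z ^ 2
  have he' : (x.1 : ND.Cob (n + 1)) = z ^ 2 + ∑ j : Fin (n + 2), ND.coface n j h := he
  rw [he']
  exact (add_sub_cancel_left _ _).symm

theorem cl_eq_iff {s : ℕ} {x y : Z s} : cl x = cl y ↔ IsB s (x.1 - y.1) := by
  constructor
  · intro h
    exact (equiv_rel s).eqvGen_iff.mp (Quot.eqvGen_exact h)
  · intro h
    exact Quot.sound h

/-- the difference of two cocycles -/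
noncomputable def subZ {s : ℕ} (x y : Z s) : Z s :=
  ⟨x.1 - y.1, by rw [dC_sub, x.2, y.2, sub_zero]⟩

theorem isHom_sub {s t : ℕ} {x y : Z s} (hx : IsHom s t x.1) (hy : IsHom s t y.1) :
    IsHom s t (subZ x y).1 :=
  (weightedHomogeneousSubmodule (ZMod 2) (fun p : Fin s × ℕ => 2 ^ (p.2 + 1) - 1) t).sub_mem hx hy

theorem h0Z_sub {s : ℕ} (x y : Z s) : (h0Z s (subZ x y)).1 = (h0Z s x).1 - (h0Z s y).1 :=
  mulH0_sub s x.1 y.1

theorem surj_iter (n : ℕ) : ∃ J : ℕ, ∀ i t : ℕ, ∀ x : Z (n + 1),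
    IsHom (n + 1) (2 ^ (J + i) * t) x.1 →
    ∃ u : Z (n + 1), IsHom (n + 1) (2 ^ J * t) u.1 ∧ (Sq0 (n + 1))^[i] (cl u) = cl x := by
  obtain ⟨r, hr⟩ := surj1 n
  refine ⟨r, fun i t => ?_⟩
  induction i with
  | zero => exact fun x hx => ⟨x, hx, rfl⟩
  | succ i ih =>
    intro x hx
    obtain ⟨z, hz, hxz⟩ := hr (2 ^ (r + (i + 1)) * t)
      (Dvd.dvd.mul_right (pow_dvd_pow 2 (by omega)) t) x hx
    have h1 : 2 ^ (r + (i + 1)) * t / 2 = 2 ^ (r + i) * t := by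
      have : 2 ^ (r + (i + 1)) * t = 2 * (2 ^ (r + i) * t) := by ring
      omega
    rw [h1] at hz
    obtain ⟨u, hu, huz⟩ := ih z hz
    refine ⟨u, hu, ?_⟩
    rw [Function.iterate_succ_apply', huz, Sq0_cl]
    exact (cl_eq_iff.2 hxz).symm

theorem iter_up {s : ℕ} (y : Ext s) (a b : ℕ) (hab : a ≤ b) (h : (Sq0 s)^[a] y = 0) :
    (Sq0 s)^[b] y = 0 := by
  obtain ⟨c, rfl⟩ := Nat.exists_eq_add_of_le hab
  rw [add_comm a c, Function.iterate_add_apply, h]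
  exact Sq0_iter_zero _ _

/-- the multiplication by `h₀` is injective -/
theorem h0_injective (n : ℕ) : ∃ J : ℕ, ∀ j t : ℕ, J ≤ j → ∀ x : Z (n + 1),
    IsHom (n + 1) (2 ^ j * t) x.1 → IsB (n + 1 + 1) (h0Z (n + 1) x).1 → IsB (n + 1) x.1 := by
  obtain ⟨J1, h1⟩ := surj_iter n
  obtain ⟨J0, h0'⟩ := h0_iter n
  refine ⟨J1 + J0 + 1, fun j t hj x hx hB => ?_⟩
  obtain ⟨i, rfl⟩ : ∃ i, j = J1 + (i + 1) := ⟨j - J1 - 1, by omega⟩
  obtain ⟨u, _, hu⟩ := h1 (i + 1) t x hx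
  rw [← cl_eq_zero, ← h0_cl, ← hu] at hB
  have h2 := h0' (cl u) i (by omega) hB
  rw [← cl_eq_zero, ← hu, Function.iterate_succ_apply', h2, Sq0_zero]

/-- `Sq⁰` is injective -/
theorem sq_injective (n : ℕ) : ∃ J : ℕ, ∀ j t : ℕ, J ≤ j → ∀ x : Z (n + 1),
    IsHom (n + 1) (2 ^ j * t) x.1 → IsB (n + 1) (sqZ (n + 1) x).1 → IsB (n + 1) x.1 := by
  obtain ⟨J1, h1⟩ := surj_iter n
  obtain ⟨r, hr⟩ := nil_iter n
  refine ⟨J1 + r, fun j t hj x hx hB => ?_⟩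
  obtain ⟨i, rfl⟩ : ∃ i, j = J1 + i := ⟨j - J1, by omega⟩
  obtain ⟨u, _, hu⟩ := h1 i t x hx
  rw [← cl_eq_zero, ← Sq0_cl, ← hu] at hB
  have h3 : (Sq0 (n + 1))^[i + 1] (cl u) = 0 := by
    rw [Function.iterate_succ_apply']
    exact hB
  have h2 := hr _ _ h3
  rw [← cl_eq_zero, ← hu]
  exact iter_up _ r _ (by omega) h2

theorem rep_congr (A : AdamsSequence) {s t : ℕ} {x y : Z s} (hx : IsHom s t x.1)
    (hy : IsHom s t y.1) : A.rep s t x hx = A.rep s t y hy ↔ IsB s (x.1 - y.1) := by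
  have h := A.start.rep_add s t (subZ x y) y x (isHom_sub hx hy) hy hx (sub_add_cancel _ _).symm
  have h2 := A.start.rep_zero s t (subZ x y) (isHom_sub hx hy)
  constructor
  · intro h3
    apply h2.1
    have h4 : A.start.rep s t x hx = A.start.rep s t y hy := h3
    rw [h4] at h
    exact left_eq_add.1 (by rw [add_comm]; exact h)
  · intro h3
    have h5 := h2.2 h3
    change A.start.rep s t x hx = A.start.rep s t y hy
    rw [h, h5, zero_add]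

theorem cycle_iff (A : AdamsSequence) {s t T : ℕ} (hT : T = 2 * t) (ht : Even t) (w : Z s)
    (hw : IsHom s t w.1) (hx : IsHom s T (sqZ s w).1) :
    A.IsCycle 2 s T (A.rep s T (sqZ s w) hx) ↔ h0 (s + 1) (cl (Sq1 s w)) = 0 := by
  subst hT
  have hh : IsHom (s + 2) (2 * t + 1) (h0Z (s + 1) (Sq1 s w)).1 := isHom_h0 _ (isHom_Sq1 w hw)
  have hb := A.bruner s t w hw hx hh ht rfl rfl
  rw [h0_cl, cl_eq_zero, ← A.start.rep_zero (s + 2) (2 * t + 1) _ hh, ← hb]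
  constructor
  · intro h
    exact h _ _ rfl rfl
  · intro h s' t' e1 e2
    obtain rfl : s' = s + 2 := e1.symm
    obtain rfl : t' = 2 * t + 1 := by omega
    exact h

/-- `Sq¹` is defined on the classes -/
theorem sq1_congr (n : ℕ) : ∃ J : ℕ, ∀ (_ : AdamsSequence) (j t : ℕ), J ≤ j → ∀ x y : Z (n + 1),
    IsHom (n + 1) (2 ^ j * t) x.1 → IsHom (n + 1) (2 ^ j * t) y.1 → cl x = cl y →
    cl (Sq1 (n + 1) x) = cl (Sq1 (n + 1) y) := by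
  obtain ⟨J, hJ⟩ := h0_injective (n + 1)
  refine ⟨J + 1, fun A j t hj x y hx hy h => ?_⟩
  have hB := sq_rel _ _ _ (cl_eq_iff.1 h)
  have hev : Even (2 ^ j * t) := by
    obtain ⟨k, rfl⟩ : ∃ k, j = k + 1 := ⟨j - 1, by omega⟩
    rw [pow_succ, mul_comm (2 ^ k) 2, mul_assoc]
    exact even_two_mul _
  have e1 := (rep_congr A (isHom_sq x hx) (isHom_sq y hy)).2 hB
  have hx2 : IsHom (n + 1 + 2) (2 * (2 ^ j * t) + 1) (h0Z (n + 1 + 1) (Sq1 (n + 1) x)).1 :=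
    isHom_h0 _ (isHom_Sq1 x hx)
  have hy2 : IsHom (n + 1 + 2) (2 * (2 ^ j * t) + 1) (h0Z (n + 1 + 1) (Sq1 (n + 1) y)).1 :=
    isHom_h0 _ (isHom_Sq1 y hy)
  have b1 := A.bruner (n + 1) (2 ^ j * t) x hx (isHom_sq x hx) hx2 hev rfl rfl
  have b2 := A.bruner (n + 1) (2 ^ j * t) y hy (isHom_sq y hy) hy2 hev rfl rfl
  have e2 : A.rep (n + 1 + 2) (2 * (2 ^ j * t) + 1) (h0Z (n + 1 + 1) (Sq1 (n + 1) x)) hx2 =
      A.rep (n + 1 + 2) (2 * (2 ^ j * t) + 1) (h0Z (n + 1 + 1) (Sq1 (n + 1) y)) hy2 := by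
    refine b1.symm.trans (Eq.trans ?_ b2)
    exact congrArg _ e1
  have h3 := (rep_congr A hx2 hy2).1 e2
  rw [← h0Z_sub] at h3
  rw [cl_eq_iff]
  refine hJ (j + 1) t (by omega) (subZ (Sq1 (n + 1) x) (Sq1 (n + 1) y)) ?_ h3
  have h4 := isHom_sub (isHom_Sq1 x hx) (isHom_Sq1 y hy)
  have h5 : 2 * (2 ^ j * t) = 2 ^ (j + 1) * t := by ring
  rw [h5] at h4
  exact h4

end Pool.Agent.H63ND
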