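import Pool.Agent.H61ND.SS

/-!
# `Sq⁰` is surjective in the degrees divisible by a high power of two
-/

set_option autoImplicit false

namespace Pool.Agent.H63ND

open Finset MvPolynomial

section stz

open Pool.Agent.W624.Stz

open Pool.Agent.Q171.DG (TT_io)

theorem ro_hom {q : ℕ} {t : ℤ} {ν : Empty → ℕ} {f : RR Empty} (hf : TT kun q t ν 0 f) {T : ℕ}
    (hT : (T : ℤ) = t) :
    IsWeightedHomogeneous (fun v : Fin q × ℕ => 2 ^ (v.2 + 1) - 1) (ro q f) T := by
  have h1 : IW (fun v : Fin q × ℕ => (2 : ℤ) ^ (v.2 + 1) - 1) (ro q f) t := by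
    have := IW.aeval' (AddMonoidHom.fst ℤ ((Empty → ℕ) × ℕ)) (ro q) (w := wF kun)
      (w' := fun v : Fin q × ℕ => (2 : ℤ) ^ (v.2 + 1) - 1) ?_ hf.iw
    · exact this
    · intro v
      cases v with
      | x a n =>
        rw [ro_x]
        split_ifs with h
        · exact isWeightedHomogeneous_X _ (fun v : Fin q × ℕ => (2 : ℤ) ^ (v.2 + 1) - 1) _
        · exact IW.zero' _ _
      | s a n =>
        have h0 : ro q (X (.s a n)) = 0 := aeval_X _ _
        rw [h0]
        exact IW.zero' _ _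
      | y c n => exact c.elim
  intro d hd
  have h2 := h1 hd
  rw [Finsupp.weight_apply, Finsupp.sum] at h2 ⊢
  have h3 : ((∑ a ∈ d.support, d a • (2 ^ (a.2 + 1) - 1) : ℕ) : ℤ) = (T : ℤ) := by
    rw [hT, ← h2]
    push_cast
    refine Finset.sum_congr rfl fun a _ => ?_
    have h4 : 1 ≤ 2 ^ (a.2 + 1) := Nat.one_le_two_pow
    rw [smul_eq_mul, nsmul_eq_mul, Nat.cast_mul, Nat.cast_sub h4]
    push_cast
    ring
  exact_mod_cast h3

/-- A cocycle of a degree divisible by a high power of `2` is cohomologous to a square. -/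
theorem surj_stz (n : ℕ) : ∃ r : ℕ, ∀ t : ℕ, 2 ^ r ∣ t → ∀ f : QQ (n + 1),
    IsWeightedHomogeneous (fun v : Fin (n + 1) × ℕ => 2 ^ (v.2 + 1) - 1) f t →
    ∑ j : Fin (n + 3), cf (n + 1) j f = 0 →
    ∃ (z : QQ (n + 1)) (h : QQ n),
      IsWeightedHomogeneous (fun v : Fin (n + 1) × ℕ => 2 ^ (v.2 + 1) - 1) z (t / 2) ∧
      ∑ j : Fin (n + 3), cf (n + 1) j z = 0 ∧
      f = z ^ 2 + ∑ j : Fin (n + 2), cf n j h := by
  obtain ⟨r, hr⟩ := exists_r (n + 1)
  refine ⟨r, fun t ht f hf hd => ?_⟩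
  set ν : Empty → ℕ := fun _ => 0 with hν
  set y := io (n + 1) f with hy
  have hty : TT kun (n + 1) (t : ℤ) ν 0 y := TT_io hf ν
  have hdy : dd kun (n + 1) y = 0 := by rw [hy, ← io_d, hd, map_zero]
  obtain ⟨g, h, hg, hDg, hdg, hh, hye⟩ := liftT (K := Empty) (q := n + 1) (t := (t : ℤ)) (ν := ν)
    (y := y) (by rw [kk]; exact hty) (by rw [kk, hdy, map_zero])
    (fun k hk => hr k hk Empty ν (by simp) ((t : ℤ) + 1 + k) (by
      rw [show (t : ℤ) + 1 + (k : ℤ) - (1 + k) = t by ring]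
      exact_mod_cast ht))
  have hdm : dm (ktw : Empty → Kd) (n + 1) h = dd kun n h := by rw [kk]; rfl
  have hh' : TT kun n (t : ℤ) ν 0 h := by rw [← kk]; exact hh
  have hioh : io (n + 1) (∑ j : Fin (n + 2), cf n j (ro n h)) = dd kun n h := by
    rw [io_d, io_ro hh']
  rcases PHI_root hg hDg with h0 | ⟨t', ht', z, hz, hzg⟩
  · refine ⟨0, ro n h, isWeightedHomogeneous_zero _ _ _, by simp, ?_⟩
    have h1 : io (n + 1) f = io (n + 1) (∑ j : Fin (n + 2), cf n j (ro n h)) := by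
      rw [hioh, ← hdm, ← hy, hye, h0, zero_add]
    have h2 := congrArg (ro (n + 1)) h1
    rw [ro_io, ro_io] at h2
    rw [h2]
    ring
  · have hdz : dd kun (n + 1) z = 0 := by
      apply PHI_inj
      rw [PHI_dd, hzg, hdg, kk, hdy]
    have hioz : io (n + 1) (ro (n + 1) z) = z := io_ro hz
    refine ⟨ro (n + 1) z, ro n h, ro_hom hz ?_, ?_, ?_⟩
    · omega
    · have h1 : io (n + 2) (∑ j : Fin (n + 3), cf (n + 1) j (ro (n + 1) z)) = 0 := by
        rw [io_d, hioz, hdz]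
      have h2 := congrArg (ro (n + 2)) h1
      rwa [ro_io, map_zero] at h2
    · have h1 : io (n + 1) f =
          io (n + 1) ((ro (n + 1) z) ^ 2 + ∑ j : Fin (n + 2), cf n j (ro n h)) := by
        rw [map_add, map_pow, hioz, hioh, ← hdm, ← hy, hye, ← PHI_sq, hzg, ← hye]
      have h2 := congrArg (ro (n + 1)) h1
      rwa [ro_io, ro_io] at h2

end stz

end Pool.Agent.H63ND
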