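import Pool.Agent.H63ND.Two

/-!
# The multiplication by `h₀²` is injective, for large `j`
-/

set_option autoImplicit false
set_option linter.unusedSectionVars false

namespace Pool.Agent.H63ND

open Finset MvPolynomial

section stz

open Pool.Agent.W624.Stz

theorem top_zero {m : ℕ} {r : RR (Option Empty)} (hr : Lt (wn Empty) m r) :
    cm (wn Empty) m r = 0 := by
  ext e
  rw [coeff_weightedHomogeneousComponent, coeff_zero]
  split_ifs with he
  · by_contra hne
    have := hr e hne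
    omega
  · rfl

theorem lt_wE {m : ℕ} {t : ℤ} {ν : Empty → ℕ} {H : RR (Option Empty)}
    (hw : IW (wE Empty) H (t, (ν, m))) : Lt (wn Empty) (m + 1) H := by
  intro e he
  have a1 := hw he
  rw [wE_eq, wmap] at a1
  rw [wn_eq', wmap]
  have b3 := congrArg (fun m => m.2.2) a1
  simp only [pE, AddMonoidHom.coe_mk, ZeroHom.coe_mk] at b3
  simp only [pn, AddMonoidHom.coe_mk, ZeroHom.coe_mk]
  omega

/-- the double of the none degree -/
noncomputable def n2 : Option Empty → ℕ := fun o => 2 * ee none o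

theorem n2_sum : ∑ c, n2 c = 2 := by
  have : ∑ c, n2 c = 2 * ∑ c, (ee none : Option Empty → ℕ) c := by
    rw [mul_sum]; rfl
  rw [this, sum_ee]

theorem n2_sub : n2 - ee none = ee none := by
  funext o
  simp only [Pi.sub_apply, n2]
  omega

theorem acyc {p m : ℕ} (hm : 1 ≤ m) {t : ℤ} {ν : Empty → ℕ} {Q : RR (Option Empty)}
    (hc : cut _ (p + 1) Q = Q) (hw : IW (wE Empty) Q (t, (ν, m))) (hd : dd kE (p + 1) Q = 0) :
    cut _ p (hh Empty p Q) = hh Empty p Q ∧ IW (wE Empty) (hh Empty p Q) (t, (ν, m)) ∧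
      dd kE p (hh Empty p Q) = Q := by
  have hL : LL Empty Q = 0 := by
    have h3 : IW (fun v => (wE Empty v).2.2) Q m := by
      have := hw.coarse ((AddMonoidHom.snd (Empty → ℕ) ℕ).comp (AddMonoidHom.snd ℤ _))
      exact this
    have h4 : IW (fun v => (wE Empty v).2.2) (LL Empty Q) 0 := by
      refine IW.aeval' (0 : ℕ →+ ℕ) (LL Empty) (w := fun v => (wE Empty v).2.2)
        (w' := fun v => (wE Empty v).2.2) ?_ h3
      intro v
      rw [LL, ev_X, AddMonoidHom.zero_apply]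
      cases v with
      | x a n => exact isWeightedHomogeneous_X _ (fun v => (wE Empty v).2.2) (Vr.x a n)
      | s a n => exact IW.zero' _ _
      | y o n =>
        cases o with
        | none => exact IW.zero' _ _
        | some c => exact c.elim
    have h5 : IW (fun v => (wE Empty v).2.2) (LL Empty Q) m := by
      refine IW.aeval' (AddMonoidHom.id ℕ) (LL Empty) (w := fun v => (wE Empty v).2.2)
        (w' := fun v => (wE Empty v).2.2) ?_ h3
      intro v
      rw [LL, ev_X, AddMonoidHom.id_apply]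
      cases v with
      | x a n => exact isWeightedHomogeneous_X _ (fun v => (wE Empty v).2.2) (Vr.x a n)
      | s a n => exact IW.zero' _ _
      | y o n =>
        cases o with
        | none => exact IW.zero' _ _
        | some c => exact c.elim
    exact IW.uniq h4 h5 (by omega)
  refine ⟨?_, IW_hh rfl hw, ?_⟩
  · have := cut_hm hc
    exact this
  · have h1 := prism_poly (p + 1) Q hc
    rw [hd, map_zero, zero_add, hL, zero_add] at h1
    exact h1

theorem h0sq_core {p r : ℕ}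
    (hQ1 : ∀ k : ℕ, k ≤ p → QT r (p - k) 2 (1 + k) (4 + 1 + k))
    (hQ2 : QT r p 2 0 2) (hQ3 : QT r p 1 0 1) {t0 : ℤ} {ν : Empty → ℕ} (ht : (2 : ℤ) ^ r ∣ t0)
    {z0 q : RR Empty} (hz : TT kun (p + 1) t0 ν 0 z0) (hdz : dd kun (p + 1) z0 = 0)
    (hq : TT kun (p + 2) (2 * t0 + 2) ν 0 q)
    (hdq : dd kun (p + 2) q = X (.x (p + 2) 0) * (X (.x (p + 1) 0) * z0 ^ 2)) :
    ∃ z', TT kun p t0 ν 0 z' ∧ dd kun p z' = z0 := by
  have hz2 : cut Empty (p + 1) (z0 ^ 2) = z0 ^ 2 := by rw [map_pow, hz.cu]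
  set W : RR Empty := X (.x (p + 1) 0) * X (.s (p + 1) 0) * z0 ^ 2 with hW
  have hdW : dd kun (p + 2) W =
      (X (.x (p + 1) 0) * X (.s (p + 2) 0) + X (.s (p + 1) 0) * X (.x (p + 2) 0)) * z0 ^ 2 := by
    rw [hW, dd_mulXS (p + 1) hz2, dd_frob, hdz]
    ring
  have hqt : TT ktw (p + 2) (2 * t0 + 2) ν 0 q := by rw [kk]; exact hq
  have hzt : TT ktw (p + 1) t0 ν 0 z0 := by rw [kk]; exact hz
  have hTW : TT ktw (p + 2) (2 * t0 + 3) ν 1 W := by
    refine ⟨?_, ?_⟩
    · rw [hW, map_mul, map_mul, cut_le (Nat.le_succ (p + 1)) hz2]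
      congr 1
      have h1 : cut Empty (p + 2) (X (.x (p + 1) 0)) = X (.x (p + 1) 0) := by
        have : cut Empty (p + 2) (X (.x (p + 1) 0)) = co (cpt (p + 2) (uni Empty)) (.x (p + 1) 0) :=
          ev_X _ _
        rw [this]
        simp only [co, cpt]
        rw [if_pos (by omega)]
        rfl
      have h2 : cut Empty (p + 2) (X (.s (p + 1) 0)) = X (.s (p + 1) 0) := by
        have : cut Empty (p + 2) (X (.s (p + 1) 0)) = co (cpt (p + 2) (uni Empty)) (.s (p + 1) 0) :=
          ev_X _ _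
        rw [this]
        simp only [co, cpt]
        rw [if_pos (by omega)]
        rfl
      rw [h1, h2]
    · have h1 := ((isWeightedHomogeneous_X (ZMod 2) (wF (ktw : Empty → Kd)) (Vr.x (p + 1) 0)).mul
        (isWeightedHomogeneous_X (ZMod 2) (wF (ktw : Empty → Kd)) (Vr.s (p + 1) 0))).mul
        (hzt.iw.pow 2)
      have h2 : wF (ktw : Empty → Kd) (Vr.x (p + 1) 0) + wF ktw (Vr.s (p + 1) 0) +
          2 • (t0, (ν, 0)) = (2 * t0 + 3, (ν, 1)) := by
        refine Prod.ext ?_ (Prod.ext (Subsingleton.elim _ _) ?_)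
        · simp [wF, wG]
          ring
        · simp [wF, wG]
      rwa [h2] at h1
  set c1 := DX Empty q + W with hc1
  have hTc : TT ktw (p + 1 + 1) (2 * t0 + 3) ν 1 c1 := by
    have h1 := hqt.DX
    rw [show 2 * t0 + 2 + 1 = 2 * t0 + 3 by ring, zero_add] at h1
    exact h1.add hTW
  have hdc : dd ktw (p + 1 + 1) c1 = 0 := by
    have h1 := DX_dd (K := Empty) (p + 2) q
    change DX Empty (dd ktw (p + 2) q) = dd ktw (p + 2) (DX Empty q) at h1
    change dd ktw (p + 2) c1 = 0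
    rw [hc1, map_add, ← h1, kk, hdq, hdW, Derivation.leibniz, Derivation.leibniz, der_sq, DX_x,
      DX_x]
    simp only [smul_eq_mul]
    have e1 := p2_add_self (X (.x (p + 2) 0) * z0 ^ 2 * X (.s (p + 1) 0) : RR Empty)
    have e2 := p2_add_self (X (.x (p + 1) 0) * z0 ^ 2 * X (.s (p + 2) 0) : RR Empty)
    linear_combination e1 + e2
  obtain ⟨H, hcH, hwH, hdH⟩ := base_H hTc hdc
  have hDc : DX Empty c1 = X (.s (p + 1) 0) ^ 2 * z0 ^ 2 := by
    rw [hc1, map_add, DX_DX, zero_add, hW, Derivation.leibniz, Derivation.leibniz, der_sq, DX_x,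
      DX_s]
    simp only [smul_eq_mul]
    ring
  set Y : RR (Option Empty) := X (.y none 0) ^ 2 * (IN Empty z0) ^ 2 with hY
  have hdQ : dd kE (p + 1) (Y + DX (Option Empty) H) = 0 := by
    rw [map_add, hY, dd_y0sq hdz, ← DX_ddE, hdH, DX_IN, hDc, map_mul, map_pow, map_pow, IN_s,
      p2_add_self]
  have hcY : cut _ (p + 1) Y = Y := by
    rw [hY, map_mul, map_pow, map_pow, ← IN_cut, hz.cu]
    congr 2
    exact ev_X _ _
  have hcQ : cut _ (p + 1) (Y + DX (Option Empty) H) = Y + DX (Option Empty) H := by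
    rw [map_add, hcY, ← DX_cut, hcH]
  have hIz : IW (wE Empty) (IN Empty z0) (t0, (ν, 0)) := IW_IN hzt.iw
  have hwY : IW (wE Empty) Y (2 * t0 + 4, (ν, 2)) := by
    have h1 := ((isWeightedHomogeneous_X (ZMod 2) (wE Empty) (Vr.y none 0)).pow 2).mul (hIz.pow 2)
    have h2 : 2 • wE Empty (Vr.y none 0) + 2 • (t0, (ν, 0)) = (2 * t0 + 4, (ν, 2)) := by
      refine Prod.ext ?_ (Prod.ext (Subsingleton.elim _ _) ?_)
      · simp [wE, wG, kE, tk]
        ring
      · simp [wE, wG, oE]
    rwa [h2] at h1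
  have hwD : IW (wE Empty) (DX (Option Empty) H) (2 * t0 + 4, (ν, 2)) := by
    have h1 := IW_DX hwH
    have h2 : ((2 * t0 + 3, (ν, 1)) : ℤ × ((Empty → ℕ) × ℕ)) + (1, ((0 : Empty → ℕ), 1)) =
        (2 * t0 + 4, (ν, 2)) := by
      refine Prod.ext ?_ (Prod.ext (Subsingleton.elim _ _) rfl)
      simp only [Prod.fst_add]
      ring
    have h3 : IW (wE Empty) (DX (Option Empty) H)
      (((2 * t0 + 3, (ν, 1)) : ℤ × ((Empty → ℕ) × ℕ)) + (1, ((0 : Empty → ℕ), 1))) := h1
    rwa [h2] at h3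
  obtain ⟨hcG, hwG, hdG⟩ := acyc (by norm_num) hcQ (hwY.add hwD) hdQ
  set G := hh Empty p (Y + DX (Option Empty) H) with hG
  set G2 := cm (wn Empty) 2 G with hG2
  have hDH2 : cm (wn Empty) 2 (DX (Option Empty) H) = 0 := by
    have h6 := cm_comm (w := wn Empty) (w' := wn Empty) (fun m => m) (fun a b h => h)
      (DX (Option Empty)).toLinearMap (fun f m hf => IW_DX_wn hf) H 2
    change cm (wn Empty) 2 (DX (Option Empty) H) =
      DX (Option Empty) (cm (wn Empty) 2 H) at h6
    rw [h6, top_zero (lt_wE hwH), map_zero]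
  have hYn : IW (wn Empty) Y 2 := by
    have h1 := ((isWeightedHomogeneous_X (ZMod 2) (wn Empty) (Vr.y none 0)).pow 2).mul
      ((IW_wn_IN z0).pow 2)
    exact h1
  have htop : dd ktw p G2 = Y := by
    have h5 := congrArg (cm (wn Empty) 2) hdG
    rw [dd_split, map_add, top_zero (lf_lt (lt_wE hwG)), add_zero] at h5
    have h6 := cm_comm (w := wn Empty) (w' := wn Empty) (fun m => m) (fun a b h => h)
      (dd ktw p) (fun f m hf => IW_dd_wn hf) G 2
    rw [h6, map_add, cm_same hYn, hDH2, add_zero] at h5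
    exact h5
  have hTG2 : TT ktw p (2 * t0 + 4) n2 0 G2 := by
    refine ⟨?_, ?_⟩
    · have h6 := cm_comm (w := wn Empty) (w' := wn Empty) (fun m => m) (fun a b h => h)
        (cut (Option Empty) p).toLinearMap (fun f m hf => by
          rw [wn_eq] at hf ⊢
          exact IW_cut_c (κ := (ktw : Option Empty → Kd)) _ hf) G 2
      simp only [AlgHom.toLinearMap_apply] at h6
      rw [hG2, ← h6, hcG]
    · have hTw : IW (wE Empty) G2 (2 * t0 + 4, (ν, 2)) := cm_other hwG
      have hTn : IW (wn Empty) G2 2 := cm_IW _ _ _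
      intro e he
      have a1 := hTw he
      have a2 := hTn he
      rw [wE_eq, wmap] at a1
      rw [wn_eq', wmap] at a2
      have b1 := congrArg Prod.fst a1
      have b3 := congrArg (fun m => m.2.2) a1
      simp only [pE, AddMonoidHom.coe_mk, ZeroHom.coe_mk] at b1 b3
      simp only [pn, AddMonoidHom.coe_mk, ZeroHom.coe_mk] at a2
      refine Prod.ext b1 (Prod.ext ?_ ?_)
      · funext o
        cases o with
        | none =>
          have h9 : n2 none = 2 := by simp only [n2]; rw [ee_self]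
          exact a2.trans h9.symm
        | some c => exact c.elim
      · simp only
        omega
  have hI0 : TT kun (p + 1) (t0 + 2 - 1 - 1) (n2 - ee none - ee none) 0 (IN Empty z0) := by
    have h1 : n2 - ee none - ee none = (0 : Option Empty → ℕ) := by
      rw [n2_sub]
      funext o
      simp
    rw [h1, show t0 + 2 - 1 - 1 = t0 by ring]
    exact TT_jI hz
  have hI1 : TT kun (p + 1) (t0 + 2 - 1) (n2 - ee none) 0 (X (.y none 0) * IN Empty z0) :=
    TT.mulY (κ := kun) (c := none) rfl (by rw [n2_sub, ee_self]) hI0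
  have hI2 : TT kun (p + 1) (t0 + 2) n2 0 (X (.y none 0) * (X (.y none 0) * IN Empty z0)) :=
    TT.mulY (κ := kun) (c := none) rfl (by simp only [n2]; rw [ee_self]; norm_num) hI1
  have hTG2' : TT ktw p (2 * (t0 + 2)) n2 0 G2 := by
    rw [show 2 * (t0 + 2) = 2 * t0 + 4 by ring]
    exact hTG2
  obtain ⟨z2, hz2T, hdz2⟩ := inj_stepG (K := Option Empty) (s := p) (n := 2) (w := 4) hQ1 n2_sum
    (t := t0 + 2) (by
      rw [show 2 * (t0 + 2) - 4 = 2 * t0 by ring]
      exact ht.mul_left 2) hI2 hTG2' (by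
      rw [htop, hY, map_mul, map_mul, PHI_y, PHI_IN]
      ring)
  obtain ⟨z3, hz3, hdz3⟩ := div_step (hQ2 (Option Empty) n2 n2_sum (t0 + 2) (by
    rw [show t0 + 2 - 2 = t0 by ring]; exact ht)) hz2T hdz2
  obtain ⟨z4, hz4, hdz4⟩ := div_step (hQ3 (Option Empty) (n2 - ee none) (by
    rw [n2_sub, sum_ee]) (t0 + 2 - 1) (by
    rw [show t0 + 2 - 1 - 1 = t0 by ring]; exact ht)) hz3 hdz3
  refine ⟨RE Empty z4, ?_, ?_⟩
  · rw [show t0 + 2 - 1 - 1 = t0 by ring] at hz4
    exact TT_jR hz4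
  · rw [← RE_dd (κ1 := kun) (κ2 := kun) (fun _ => rfl) (fun h => Kd.noConfusion h), hdz4, RE_IN]

theorem exists_r4 (p : ℕ) : ∃ r, (∀ k : ℕ, k ≤ p → QT r (p - k) 2 (1 + k) (4 + 1 + k)) ∧
    QT r p 2 0 2 ∧ QT r p 1 0 1 := by
  obtain ⟨r1, h1⟩ := fin_max (fun k r => QT r (p - k) 2 (1 + k) (4 + 1 + k))
    (fun i r r' h hq => hq.mono h) p (by
      intro k hk
      exact stepQ (p - k) (fun p' _ => (main_ind p').2) (1 + k) (by omega) 2 (4 + 1 + k) (by
        push_cast; linarith))
  obtain ⟨r2, h2⟩ := (main_ind p).2 2 2 (by norm_num)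
  obtain ⟨r3, h3⟩ := (main_ind p).2 1 1 (by norm_num)
  exact ⟨r1 + r2 + r3, fun k hk => (h1 k hk).mono (by omega), h2.mono (by omega),
    h3.mono (by omega)⟩

end stz

end Pool.Agent.H63ND
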