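import Pool.Agent.H63ND.H0T
import Pool.Agent.W624.NDbasic

/-!
# The multiplication by `h₀²` is injective, for large `j`: tools
-/

set_option autoImplicit false
set_option linter.unusedSectionVars false

namespace Pool.Agent.H63ND

open Finset MvPolynomial

section stz

open Pool.Agent.W624.Stz

theorem dd_frob {K : Type} (κ : K → Kd) (q : ℕ) (f : RR K) : dd κ q (f ^ 2) = (dd κ q f) ^ 2 := by
  rw [dd_apply, dd_apply]
  have h : ∀ s : Finset ℕ, ∑ j ∈ s, ev (fc (act κ) q j (uni K)) (f ^ 2) =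
      (∑ j ∈ s, ev (fc (act κ) q j (uni K)) f) ^ 2 := by
    classical
    intro s
    induction s using Finset.induction_on with
    | empty => simp
    | insert a s ha ih => rw [sum_insert ha, sum_insert ha, p2_add_sq, ih, map_pow]
  exact h _

/-- the divided square of `ξ₁` -/
theorem dd_mulXS (s : ℕ) {f : RR Empty} (hf : cut Empty s f = f) :
    dd kun (s + 1) (X (.x s 0) * X (.s s 0) * f) =
      X (.x (s + 1) 0) * X (.s (s + 1) 0) * dd kun s f +
      (X (.x s 0) * X (.s (s + 1) 0) + X (.s s 0) * X (.x (s + 1) 0)) * f := by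
  have hA : ∀ j, j ≤ s → ev (fc (act kun) (s + 1) j (uni Empty)) (X (.x s 0))
      = X (.x (s + 1) 0) := by
    intro j hj
    rw [ev_X]
    cases j with
    | zero => rw [fc_zero]; rfl
    | succ k =>
      rw [fc_mid _ (by omega)]
      simp only [co]
      rw [mrg_gt (by omega)]
      rfl
  have hA' : ∀ j, j ≤ s → ev (fc (act kun) (s + 1) j (uni Empty)) (X (.s s 0))
      = X (.s (s + 1) 0) := by
    intro j hj
    rw [ev_X]
    cases j with
    | zero => rw [fc_zero]; rfl
    | succ k =>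
      rw [fc_mid _ (by omega)]
      simp only [co]
      rw [mrg_gt (by omega)]
      rfl
  have hB : ∀ j, j ≤ s → ev (fc (act kun) (s + 1) j (uni Empty)) f
      = ev (fc (act kun) s j (uni Empty)) f := by
    intro j hj
    apply dep_of_cut hf
    cases j with
    | zero => rw [fc_zero, fc_zero]; exact ⟨fun _ _ => rfl, rfl⟩
    | succ k => rw [fc_mid _ (by omega), fc_mid _ (by omega)]; exact ⟨fun _ _ => rfl, rfl⟩
  have hC1 : ev (fc (act kun) (s + 1) (s + 1) (uni Empty)) (X (.x s 0))
      = X (.x s 0) + X (.x (s + 1) 0) := by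
    rw [ev_X, fc_mid _ (by omega)]
    simp only [co]
    rw [mrg_eq, mul_g, op]
    simp [Finset.Nat.antidiagonal_succ, uni, ug, add_comm]
  have hC1' : ev (fc (act kun) (s + 1) (s + 1) (uni Empty)) (X (.s s 0))
      = X (.s s 0) + X (.s (s + 1) 0) := by
    rw [ev_X, fc_mid _ (by omega)]
    simp only [co]
    rw [mrg_eq, mul_s, Pi.add_apply, op]
    simp [uni, ug, fr]
    try ring
  have hC2 : ev (fc (act kun) (s + 1) (s + 1) (uni Empty)) f = f := by
    have h := dep_of_cut hf (fc (act kun) (s + 1) (s + 1) (uni Empty)) (uni Empty) (by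
      rw [fc_mid _ (by omega)]
      exact ⟨fun a ha => mrg_lt ha _, rfl⟩)
    simp only at h
    rw [h, ev_uni]
  have hD1 : ev (fc (act kun) (s + 1) (s + 2) (uni Empty)) (X (.x s 0)) = X (.x s 0) := by
    rw [ev_X, fc_last _ (by omega)]
    rfl
  have hD1' : ev (fc (act kun) (s + 1) (s + 2) (uni Empty)) (X (.s s 0)) = X (.s s 0) := by
    rw [ev_X, fc_last _ (by omega)]
    rfl
  have hD2 : ev (fc (act kun) (s + 1) (s + 2) (uni Empty)) f = f := by
    have h0 := Pool.Agent.W624.ND.agr_last (s + 1) (uni Empty) (s + 2) (by omega)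
    have h := dep_of_cut hf (fc (act kun) (s + 1) (s + 2) (uni Empty)) (uni Empty)
      ⟨fun a ha => h0.1 a (by omega), h0.2⟩
    simp only at h
    rw [h, ev_uni]
  have hE : ev (fc (act kun) s (s + 1) (uni Empty)) f = f := by
    have h := dep_of_cut hf _ _ (Pool.Agent.W624.ND.agr_last s (uni Empty) (s + 1) (by omega))
    simp only at h
    rw [h, ev_uni]
  rw [dd_apply, dd_apply, sum_range_succ, sum_range_succ, sum_range_succ (n := s + 1)]
  rw [map_mul, map_mul, map_mul, map_mul, hC1, hC1', hC2, hD1, hD1', hD2, hE]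
  have hS : ∑ x ∈ range (s + 1), ev (fc (act kun) (s + 1) x (uni Empty))
      (X (.x s 0) * X (.s s 0) * f)
      = X (.x (s + 1) 0) * X (.s (s + 1) 0) *
        ∑ x ∈ range (s + 1), ev (fc (act kun) s x (uni Empty)) f := by
    rw [mul_sum]
    refine sum_congr rfl fun j hj => ?_
    rw [mem_range] at hj
    rw [map_mul, map_mul, hA j (by omega), hA' j (by omega), hB j (by omega)]
  rw [hS]
  have h2 := p2_add_self (X (.x s 0) * X (.s s 0) * f)
  linear_combination h2

/-- `y₀² z²` in the affine complex -/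
theorem dd_y0sq {p : ℕ} {z : RR Empty} (hz : dd kun p z = 0) :
    dd kE p (X (.y none 0) ^ 2 * (IN Empty z) ^ 2) = X (.s p 0) ^ 2 * (IN Empty z) ^ 2 := by
  have h1 : dd ktw p (X (.y none 0) ^ 2 * (IN Empty z) ^ 2) = 0 := by
    have h2 : X (.y none 0) ^ 2 * (IN Empty z) ^ 2 =
        PHI (Option Empty) (X (.y none 0) * (X (.y none 0) * IN Empty z)) := by
      rw [map_mul, map_mul, PHI_y, PHI_IN]
      ring
    rw [h2, ← PHI_dd, dd_Y (κ := kun) (c := none) rfl, dd_Y (κ := kun) (c := none) rfl,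
      ← IN_dd (κ1 := kun) (κ2 := kun) (fun _ => rfl), hz, map_zero, mul_zero, mul_zero, map_zero]
  have h3 : ∀ κ : Option Empty → Kd, lf κ p ((IN Empty z) ^ 2) = (IN Empty z) ^ 2 := by
    intro κ
    rw [map_pow, lf_IN]
  rw [dd_split, h1, zero_add, map_mul, map_mul, h3, h3, ← add_mul, map_pow, map_pow, ← p2_add_sq,
    lf_y]

theorem TY_actE {K : Type} {σ : Type} (D : Derivation (ZMod 2) (P2 σ) (P2 σ)) (γ : Tg (P2 σ))
    (hγ : TM D γ) (y : Option K → ℕ → P2 σ) (hy : TY D y) : TY D (act kE γ y) := by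
  intro c n
  have h0 : (fun n => D (y c n)) = fun _ => 0 := by funext n; exact hy c n
  cases c with
  | none =>
    simp only [act, act1, kE, Pi.add_apply]
    rw [map_add, der_op_fr, hγ.2, add_zero, h0, op_zero_fun]
  | some c =>
    simp only [act, act1, kE]
    rw [der_op_fr, h0, op_zero_fun]

theorem DX_ddE {K : Type} (q : ℕ) (f : RR (Option K)) :
    DX (Option K) (dd kE q f) = dd kE q (DX (Option K) f) := by
  rw [dd_apply, dd_apply, map_sum]
  refine sum_congr rfl fun j _ => ?_
  have := fc_pres (ac := act (K := Option K) (A := RR (Option K)) kE) (TM (DX (Option K)))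
    (TY (DX (Option K))) (TM_mul (DX (Option K))) (fun g y hg hy => TY_actE (DX (Option K)) g hg y hy)
    q j (uni (Option K)) uni_TM uni_TY
  exact DX_ev _ this.1 this.2 f

theorem DX_IN (f : RR Empty) : DX (Option Empty) (IN Empty f) = IN Empty (DX Empty f) := by
  apply der_hom
  intro v
  cases v with
  | x a n => rw [IN_x, DX_x, DX_x, IN_s]
  | s a n => rw [IN_s, DX_s, DX_s, map_zero]
  | y c n => exact c.elim

theorem IW_DX_wn {f : RR (Option Empty)} {m : ℕ} (hf : IW (wn Empty) f m) :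
    IW (wn Empty) (DX (Option Empty) f) m := by
  have h := IW.der' (w := wn Empty) 0 (DX (Option Empty)) (fun v => by
    cases v with
    | x a n => rw [DX_x]; exact isWeightedHomogeneous_X _ (wn Empty) (Vr.s a n)
    | s a n => rw [DX_s]; exact IW.zero' _ _
    | y c n => rw [DX_y]; exact IW.zero' _ _) hf
  rwa [add_zero] at h

theorem div_step {p : ℕ} {τ : ℤ} {ν' : Option Empty → ℕ} (hex : Ex ktw p τ ν' 0)
    {z Z : RR (Option Empty)} (hz : TT kun p τ ν' 0 z)
    (hd : dd kun p z = X (.y none 0) * Z) :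
    ∃ z3, TT kun p (τ - 1) (ν' - ee none) 0 z3 ∧ dd kun p z3 = Z := by
  have hPz : dd ktw p (PI (sg none) z) = 0 := by
    rw [← PI_dd Rel_O, hd, map_mul, PI_y0, zero_mul]
  obtain ⟨h, hh, hdh⟩ := hex _ (hz.PI Rel_O) hPz
  have hSI := hh.SI Rel_O
  have hw : TT kun p τ ν' 0 (z - dm kun p (SI (sg none) h)) := hz.sub (hSI.dm naf_un)
  have hPw : PI (sg none) (z - dm kun p (SI (sg none) h)) = 0 := by
    rw [map_sub, PI_dm Rel_O, PI_SI, hdh, sub_self]
  have hdw : dd kun p (z - dm kun p (SI (sg none) h)) = X (.y none 0) * Z := by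
    rw [map_sub, dd_dm kun hSI.cu, sub_zero, hd]
  rcases Y_div (κ := kun) (c := none) rfl hw hPw with h0 | ⟨_, q2, hq2, hTq2⟩
  · rw [h0, map_zero] at hdw
    refine ⟨0, TT.zero, ?_⟩
    rw [map_zero]
    rcases mul_eq_zero.mp hdw.symm with h3 | h3
    · exact absurd h3 (X_ne_zero _)
    · exact h3.symm
  · refine ⟨q2, hTq2, ?_⟩
    rw [hq2, dd_Y (κ := kun) (c := none) rfl] at hdw
    exact mul_left_cancel₀ (X_ne_zero _) hdw

end stz

end Pool.Agent.H63ND
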